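import Pool.Agent.Q120.SM.Stm
import Pool.Agent.Q120.MF.Hits

set_option autoImplicit false

/-! # Project SM, hand-in 1: deterministic part of the assembly -/

namespace Pool.Agent.Q120.SM

open Finset MeasureTheory Filter Topology Set Pool.Agent.Q120.GM
open scoped ENNReal

/-- the density of `S` in `(α y, α y + a log² y]`, relative to `1 / log y` -/
noncomputable def dens (S : Set ℕ) (a y α : ℝ) : ℝ :=
  ({n : ℕ | n ∈ S ∧ α * y < n ∧ (n : ℝ) ≤ α * y + a * Real.log y ^ 2}.ncard : ℝ) / (a * Real.log y)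

/-- the upper limit of the densities is at least `u` -/
def Upper (S : Set ℕ) (a : ℝ) (x : ℕ → ℝ) (u : ℝ) : Set ℝ :=
  {α | 1 ≤ α ∧ α ≤ 2 ∧ ∀ v : ℝ, v < u → ∃ᶠ n in atTop, v < dens S a (x n) α}

/-- the lower limit of the densities is at most `u` -/
def Lower (S : Set ℕ) (a : ℝ) (x : ℕ → ℝ) (u : ℝ) : Set ℝ :=
  {α | 1 ≤ α ∧ α ≤ 2 ∧ ∀ v : ℝ, u < v → ∃ᶠ n in atTop, dens S a (x n) α < v}

/-- `u` is a limit point of the densities -/
def Cluster (S : Set ℕ) (a : ℝ) (x : ℕ → ℝ) (u : ℝ) : Set ℝ :=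
  {α | 1 ≤ α ∧ α ≤ 2 ∧ ∀ ε : ℝ, 0 < ε → ∃ᶠ n in atTop, |dens S a (x n) α - u| < ε}

/-- the densities converge to `u` -/
def Limit (S : Set ℕ) (a : ℝ) (x : ℕ → ℝ) (u : ℝ) : Set ℝ :=
  {α | 1 ≤ α ∧ α ≤ 2 ∧ Tendsto (fun n => dens S a (x n) α) atTop (𝓝 u)}

lemma cluster_upper {S : Set ℕ} {a : ℝ} {x : ℕ → ℝ} {u : ℝ} : Cluster S a x u ⊆ Upper S a x u := by
  rintro α ⟨h1, h2, h3⟩
  refine ⟨h1, h2, fun v hv => (h3 (u - v) (by linarith)).mono fun n h => ?_⟩
  rw [abs_lt] at h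
  linarith [h.1]

lemma cluster_lower {S : Set ℕ} {a : ℝ} {x : ℕ → ℝ} {u : ℝ} : Cluster S a x u ⊆ Lower S a x u := by
  rintro α ⟨h1, h2, h3⟩
  refine ⟨h1, h2, fun v hv => (h3 (v - u) (by linarith)).mono fun n h => ?_⟩
  rw [abs_lt] at h
  linarith [h.2]

lemma limit_cluster {S : Set ℕ} {a : ℝ} {x : ℕ → ℝ} {u : ℝ} : Limit S a x u ⊆ Cluster S a x u := by
  rintro α ⟨h1, h2, h3⟩
  refine ⟨h1, h2, fun ε hε => ?_⟩
  have h4 := (Metric.tendsto_nhds.mp h3) ε hε
  exact (h4.mono fun n h => by rwa [Real.dist_eq] at h).frequently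

/-- the real windows and the windows of integers -/
lemma cnt_near {S : Set ℕ} {z w : ℝ} (hz : 0 ≤ z) (hw : 0 ≤ w) :
    (cnt S ⌊z⌋₊ ⌊w⌋₊ : ℝ) ≤ ({n : ℕ | n ∈ S ∧ z < n ∧ (n : ℝ) ≤ z + w}.ncard : ℝ) ∧
    ({n : ℕ | n ∈ S ∧ z < n ∧ (n : ℝ) ≤ z + w}.ncard : ℝ) ≤ (cnt S ⌊z⌋₊ ⌊w⌋₊ : ℝ) + 1 := by
  set m := ⌊z⌋₊ with hm
  set h := ⌊w⌋₊ with hh
  have hm1 : (m : ℝ) ≤ z := Nat.floor_le hz
  have hm2 : z < m + 1 := Nat.lt_floor_add_one z
  have hh1 : (h : ℝ) ≤ w := Nat.floor_le hw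
  have hh2 : w < h + 1 := Nat.lt_floor_add_one w
  have hfin : {n : ℕ | n ∈ S ∧ m < n ∧ n ≤ m + h}.Finite :=
    (Set.finite_le_nat (m + h)).subset fun n hn => hn.2.2
  have hsub : {n : ℕ | n ∈ S ∧ z < n ∧ (n : ℝ) ≤ z + w} ⊆
      insert (m + h + 1) {n : ℕ | n ∈ S ∧ m < n ∧ n ≤ m + h} := by
    rintro n ⟨h1, h2, h3⟩
    have h4 : m < n := by
      have : (m : ℝ) < n := by linarith
      exact_mod_cast this
    have h5 : n < m + h + 2 := by
      have : (n : ℝ) < m + h + 2 := by linarith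
      exact_mod_cast this
    rcases Nat.lt_or_ge (m + h) n with h6 | h6
    · left; omega
    · right; exact ⟨h1, h4, h6⟩
  have hfin2 : {n : ℕ | n ∈ S ∧ z < n ∧ (n : ℝ) ≤ z + w}.Finite := (hfin.insert _).subset hsub
  constructor
  · unfold cnt
    have : {n : ℕ | n ∈ S ∧ m < n ∧ n ≤ m + h} ⊆ {n : ℕ | n ∈ S ∧ z < n ∧ (n : ℝ) ≤ z + w} := by
      rintro n ⟨h1, h2, h3⟩
      refine ⟨h1, ?_, ?_⟩
      · have : ((m + 1 : ℕ) : ℝ) ≤ n := by exact_mod_cast h2
        push_cast at this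
        linarith
      · have : (n : ℝ) ≤ ((m + h : ℕ) : ℝ) := by exact_mod_cast h3
        push_cast at this
        linarith
    exact_mod_cast Set.ncard_le_ncard this hfin2
  · have h1 := Set.ncard_le_ncard hsub (hfin.insert _)
    have h2 := Set.ncard_insert_le (m + h + 1) {n : ℕ | n ∈ S ∧ m < n ∧ n ≤ m + h}
    have h3 := h1.trans h2
    unfold cnt
    exact_mod_cast h3

/-- dense positions -/
def BU (S : Set ℕ) (a v y : ℝ) : Set ℕ := {m | v * (a * Real.log y) ≤ cnt S m ⌊a * Real.log y ^ 2⌋₊}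

/-- sparse positions -/
def BL (S : Set ℕ) (a v y : ℝ) : Set ℕ := {m | (cnt S m ⌊a * Real.log y ^ 2⌋₊ : ℝ) ≤ v * (a * Real.log y)}

/-- positions of density close to `u` -/
def BC (S : Set ℕ) (a u ε y : ℝ) : Set ℕ :=
  {m | |(cnt S m ⌊a * Real.log y ^ 2⌋₊ : ℝ) - u * (a * Real.log y)| ≤ ε * Real.log y}

/-- the density and the count -/
lemma dens_near {S : Set ℕ} {a y α : ℝ} (ha : 0 < a) (hy : 1 < y) (hα : 1 ≤ α) :
    (cnt S ⌊α * y⌋₊ ⌊a * Real.log y ^ 2⌋₊ : ℝ) ≤ dens S a y α * (a * Real.log y) ∧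
    dens S a y α * (a * Real.log y) ≤ (cnt S ⌊α * y⌋₊ ⌊a * Real.log y ^ 2⌋₊ : ℝ) + 1 := by
  have hl : 0 < Real.log y := Real.log_pos hy
  have h1 := cnt_near (S := S) (z := α * y) (w := a * Real.log y ^ 2) (by positivity) (by positivity)
  have h2 : dens S a y α * (a * Real.log y) =
      ({n : ℕ | n ∈ S ∧ α * y < n ∧ (n : ℝ) ≤ α * y + a * Real.log y ^ 2}.ncard : ℝ) := by
    unfold dens
    field_simp
  rw [h2]
  exact h1

lemma ff_nonneg {u : ℝ} (hu : 0 ≤ u) : 0 ≤ ff u := by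
  unfold ff
  rcases hu.eq_or_lt with h | h
  · rw [← h]; simp
  · have h1 := Real.one_sub_inv_le_log_of_pos h
    have h2 : u * (1 - u⁻¹) ≤ u * Real.log u := mul_le_mul_of_nonneg_left h1 hu
    have h3 : u * (1 - u⁻¹) = u - 1 := by field_simp
    linarith

lemma ff_cont : Continuous ff := by
  unfold ff
  exact (continuous_const.sub continuous_id).add Real.continuous_mul_log

lemma ff_one : ff 1 = 0 := by simp [ff]

lemma tendsto_scales {x : ℕ → ℝ} (hx : Scales x) : Tendsto x atTop atTop :=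
  Pool.Agent.Q120.MF.eventually_large hx.1 hx.2

lemma log_large {x : ℕ → ℝ} (hx : Scales x) : Tendsto (fun n => Real.log (x n)) atTop atTop :=
  Real.tendsto_log_atTop.comp (tendsto_scales hx)

/-- limit of a family of upper bounds -/
lemma le_of_forall_add {d : ℝ≥0∞} {r : ℝ} (h : ∀ η : ℝ, 0 < η → d ≤ ENNReal.ofReal (r + η)) :
    d ≤ ENNReal.ofReal r := by
  have h1 : Tendsto (fun η : ℝ => ENNReal.ofReal (r + η)) (𝓝[>] 0) (𝓝 (ENNReal.ofReal r)) := by
    have h2 : Continuous fun η : ℝ => ENNReal.ofReal (r + η) :=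
      ENNReal.continuous_ofReal.comp (continuous_const.add continuous_id)
    have h3 := h2.tendsto 0
    simp only [add_zero] at h3
    exact h3.mono_left nhdsWithin_le_nhds
  refine ge_of_tendsto h1 ?_
  filter_upwards [self_mem_nhdsWithin] with η hη
  exact h η hη

/-- limit of a family of lower bounds -/
lemma ofReal_le_of_forall_sub {d : ℝ≥0∞} {r : ℝ} (h : ∀ η : ℝ, 0 < η → ENNReal.ofReal (r - η) ≤ d) :
    ENNReal.ofReal r ≤ d := by
  have h1 : Tendsto (fun η : ℝ => ENNReal.ofReal (r - η)) (𝓝[>] 0) (𝓝 (ENNReal.ofReal r)) := by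
    have h2 : Continuous fun η : ℝ => ENNReal.ofReal (r - η) :=
      ENNReal.continuous_ofReal.comp (continuous_const.sub continuous_id)
    have h3 := h2.tendsto 0
    simp only [sub_zero] at h3
    exact h3.mono_left nhdsWithin_le_nhds
  refine le_of_tendsto h1 ?_
  filter_upwards [self_mem_nhdsWithin] with η hη
  exact h η hη

/-- diagonal sequences -/
lemma exists_diag (P : ℕ → ℕ → Prop) (h : ∀ k, ∀ᶠ n in atTop, P k n) :
    ∃ κ : ℕ → ℕ, Tendsto κ atTop atTop ∧ ∀ᶠ n in atTop, P (κ n) n := by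
  classical
  choose N hN using fun k => eventually_atTop.mp (h k)
  set M : ℕ → ℕ := fun k => k + ∑ j ∈ Finset.range (k + 1), N j with hM
  have hM1 : ∀ k, N k ≤ M k := by
    intro k
    have : N k ≤ ∑ j ∈ Finset.range (k + 1), N j :=
      Finset.single_le_sum (f := N) (fun _ _ => Nat.zero_le _) (Finset.mem_range.mpr (Nat.lt_succ_self k))
    simp only [hM]
    omega
  refine ⟨fun n => Nat.findGreatest (fun k => M k ≤ n) n, ?_, ?_⟩
  · refine tendsto_atTop.mpr fun b => ?_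
    filter_upwards [eventually_ge_atTop (M b)] with n hn
    refine Nat.le_findGreatest ?_ hn
    have : b ≤ M b := by simp only [hM]; omega
    omega
  · filter_upwards [eventually_ge_atTop (M 0)] with n hn
    have h1 : M (Nat.findGreatest (fun k => M k ≤ n) n) ≤ n :=
      Nat.findGreatest_spec (P := fun k => M k ≤ n) (Nat.zero_le n) hn
    exact hN _ _ ((hM1 _).trans h1)

/-- what is needed of the set -/
structure Good (S : Set ℕ) (a : ℝ) (x : ℕ → ℝ) : Prop where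
  up : ∀ v : ℚ, 1 ≤ (v : ℝ) → ∀ δ : ℝ, 0 < δ → ∀ᶠ n in atTop, Few (BU S a v (x n)) (x n) (1 - a * ff v + δ)
  low : ∀ v : ℚ, 0 ≤ (v : ℝ) → (v : ℝ) ≤ 1 → ∀ δ : ℝ, 0 < δ →
    ∀ᶠ n in atTop, Few (BL S a v (x n)) (x n) (1 - a * ff v + δ)
  thick : ∀ u ε θ : ℝ, 0 ≤ u → 0 < ε → a * ff u < θ → θ < 1 → ∀ᶠ n in atTop, Thick (BC S a u ε (x n)) (x n) θ

/-- dimension of the sets of the positions -/
lemma dimH_LS_le (h1 : J_D1) {x : ℕ → ℝ} (hx : Scales x) {B : ℕ → Set ℕ} {r : ℝ}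
    (h : ∀ δ : ℝ, 0 < δ → ∀ᶠ n in atTop, Few (B n) (x n) (r + δ)) : dimH (LS x B) ≤ ENNReal.ofReal r := by
  rcases le_or_gt 0 r with hr | hr
  · exact (h1 x B hx).1 r hr h
  · have h2 := h (-r / 2) (by linarith)
    have h3 := ((h1 x B hx).2 (r + -r / 2) (by linarith) h2).2
    rw [h3]
    simp

lemma LS_empty (h1 : J_D1) {x : ℕ → ℝ} (hx : Scales x) {B : ℕ → Set ℕ} {r : ℝ} (hr : r < 0)
    (h : ∀ δ : ℝ, 0 < δ → ∀ᶠ n in atTop, Few (B n) (x n) (r + δ)) : LS x B = ∅ := by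
  have h2 := h (-r / 2) (by linarith)
  exact ((h1 x B hx).2 (r + -r / 2) (by linarith) h2).2

lemma upper_sub {S : Set ℕ} {a : ℝ} (ha : 0 < a) {x : ℕ → ℝ} (hx : Scales x) {u v : ℝ} (hv : v < u) :
    Upper S a x u ⊆ LS x (fun n => BU S a v (x n)) := by
  rintro α ⟨h1, h2, h3⟩
  refine ⟨h1, h2, ?_⟩
  obtain ⟨w, hw1, hw2⟩ := exists_between hv
  have h4 : ∀ᶠ n in atTop, 1 < x n := (tendsto_scales hx).eventually_gt_atTop 1
  have h5 : ∀ᶠ n in atTop, 1 / ((w - v) * a) ≤ Real.log (x n) := (log_large hx).eventually_ge_atTop _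
  refine ((h3 w hw2).and_eventually (h4.and h5)).mono ?_
  rintro n ⟨g1, g2, g3⟩
  have hl : 0 < Real.log (x n) := Real.log_pos g2
  have g4 := (dens_near (S := S) ha g2 h1).2
  have hwa : 0 < (w - v) * a := mul_pos (by linarith) ha
  rw [div_le_iff₀ hwa] at g3
  have g5 : w * (a * Real.log (x n)) ≤ dens S a (x n) α * (a * Real.log (x n)) :=
    mul_le_mul_of_nonneg_right g1.le (by positivity)
  show v * (a * Real.log (x n)) ≤ _
  nlinarith

lemma lower_sub {S : Set ℕ} {a : ℝ} (ha : 0 < a) {x : ℕ → ℝ} (hx : Scales x) {u v : ℝ} (hv : u < v) :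
    Lower S a x u ⊆ LS x (fun n => BL S a v (x n)) := by
  rintro α ⟨h1, h2, h3⟩
  refine ⟨h1, h2, ?_⟩
  have h4 : ∀ᶠ n in atTop, 1 < x n := (tendsto_scales hx).eventually_gt_atTop 1
  refine ((h3 v hv).and_eventually h4).mono ?_
  rintro n ⟨g1, g2⟩
  have hl : 0 < Real.log (x n) := Real.log_pos g2
  have g4 := (dens_near (S := S) ha g2 h1).1
  have g5 : dens S a (x n) α * (a * Real.log (x n)) ≤ v * (a * Real.log (x n)) :=
    mul_le_mul_of_nonneg_right g1.le (by positivity)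
  exact g4.trans g5

lemma dimH_le_one (s : Set ℝ) : dimH s ≤ 1 := by
  have h1 := dimH_mono (Set.subset_univ s)
  rwa [Real.dimH_univ] at h1

theorem upper_le (h1 : J_D1) {S : Set ℕ} {a : ℝ} (ha : 0 < a) {x : ℕ → ℝ} (hx : Scales x) (hG : Good S a x)
    {u : ℝ} (hu : 1 ≤ u) : dimH (Upper S a x u) ≤ ENNReal.ofReal (1 - a * ff u) := by
  rcases hu.eq_or_lt with h | h
  · rw [← h, ff_one, mul_zero, sub_zero, ENNReal.ofReal_one]
    exact dimH_le_one _
  · refine le_of_forall_add fun η hη => ?_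
    have h2 : ∀ᶠ v in 𝓝[<] u, a * ff u - η < a * ff v := by
      have h3 : Tendsto (fun v => a * ff v) (𝓝[<] u) (𝓝 (a * ff u)) :=
        ((continuous_const.mul ff_cont).tendsto u).mono_left nhdsWithin_le_nhds
      exact h3.eventually_const_lt (by linarith)
    rw [eventually_iff, mem_nhdsLT_iff_exists_Ioo_subset] at h2
    obtain ⟨l, hl, h3⟩ := h2
    have hl : l < u := hl
    obtain ⟨v, hv1, hv2⟩ := exists_rat_btwn (max_lt hl h)
    have h4 : a * ff u - η < a * ff v := h3 ⟨(le_max_left _ _).trans_lt hv1, hv2⟩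
    have h5 : (1:ℝ) ≤ v := ((le_max_right _ _).trans_lt hv1).le
    refine (dimH_mono (upper_sub ha hx hv2)).trans ((dimH_LS_le h1 hx (hG.up v h5)).trans ?_)
    exact ENNReal.ofReal_le_ofReal (by linarith)

theorem upper_empty (h1 : J_D1) {S : Set ℕ} {a : ℝ} (ha : 0 < a) {x : ℕ → ℝ} (hx : Scales x) (hG : Good S a x)
    {u : ℝ} (hu : 1 ≤ u) (h : 1 < a * ff u) : Upper S a x u = ∅ := by
  have hu1 : 1 < u := by
    rcases hu.eq_or_lt with h2 | h2
    · rw [← h2, ff_one, mul_zero] at h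
      linarith
    · exact h2
  have h2 : ∀ᶠ v in 𝓝[<] u, 1 < a * ff v := by
    have h3 : Tendsto (fun v => a * ff v) (𝓝[<] u) (𝓝 (a * ff u)) :=
      ((continuous_const.mul ff_cont).tendsto u).mono_left nhdsWithin_le_nhds
    exact h3.eventually_const_lt h
  rw [eventually_iff, mem_nhdsLT_iff_exists_Ioo_subset] at h2
  obtain ⟨l, hl, h3⟩ := h2
  have hl : l < u := hl
  obtain ⟨v, hv1, hv2⟩ := exists_rat_btwn (max_lt hl hu1)
  have h4 : 1 < a * ff v := h3 ⟨(le_max_left _ _).trans_lt hv1, hv2⟩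
  have h5 : (1:ℝ) ≤ v := ((le_max_right _ _).trans_lt hv1).le
  have h6 := LS_empty h1 hx (r := 1 - a * ff v) (by linarith) (hG.up v h5)
  exact Set.subset_eq_empty (upper_sub ha hx hv2) h6

theorem lower_le (h1 : J_D1) {S : Set ℕ} {a : ℝ} (ha : 0 < a) {x : ℕ → ℝ} (hx : Scales x) (hG : Good S a x)
    {u : ℝ} (hu0 : 0 ≤ u) (hu : u ≤ 1) : dimH (Lower S a x u) ≤ ENNReal.ofReal (1 - a * ff u) := by
  rcases hu.eq_or_lt with h | h
  · rw [h, ff_one, mul_zero, sub_zero, ENNReal.ofReal_one]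
    exact dimH_le_one _
  · refine le_of_forall_add fun η hη => ?_
    have h2 : ∀ᶠ v in 𝓝[>] u, a * ff u - η < a * ff v := by
      have h3 : Tendsto (fun v => a * ff v) (𝓝[>] u) (𝓝 (a * ff u)) :=
        ((continuous_const.mul ff_cont).tendsto u).mono_left nhdsWithin_le_nhds
      exact h3.eventually_const_lt (by linarith)
    rw [eventually_iff, mem_nhdsGT_iff_exists_Ioo_subset] at h2
    obtain ⟨l, hl, h3⟩ := h2
    have hl : u < l := hl
    obtain ⟨v, hv1, hv2⟩ := exists_rat_btwn (lt_min hl h)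
    have h4 : a * ff u - η < a * ff v := h3 ⟨hv1, hv2.trans_le (min_le_left _ _)⟩
    have h5 : (v:ℝ) ≤ 1 := (hv2.trans_le (min_le_right _ _)).le
    refine (dimH_mono (lower_sub ha hx hv1)).trans ((dimH_LS_le h1 hx (hG.low v (hu0.trans hv1.le) h5)).trans ?_)
    exact ENNReal.ofReal_le_ofReal (by linarith)

theorem lower_empty (h1 : J_D1) {S : Set ℕ} {a : ℝ} (ha : 0 < a) {x : ℕ → ℝ} (hx : Scales x) (hG : Good S a x)
    {u : ℝ} (hu0 : 0 ≤ u) (hu : u ≤ 1) (h : 1 < a * ff u) : Lower S a x u = ∅ := by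
  have hu1 : u < 1 := by
    rcases hu.eq_or_lt with h2 | h2
    · rw [h2, ff_one, mul_zero] at h
      linarith
    · exact h2
  have h2 : ∀ᶠ v in 𝓝[>] u, 1 < a * ff v := by
    have h3 : Tendsto (fun v => a * ff v) (𝓝[>] u) (𝓝 (a * ff u)) :=
      ((continuous_const.mul ff_cont).tendsto u).mono_left nhdsWithin_le_nhds
    exact h3.eventually_const_lt h
  rw [eventually_iff, mem_nhdsGT_iff_exists_Ioo_subset] at h2
  obtain ⟨l, hl, h3⟩ := h2
  have hl : u < l := hl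
  obtain ⟨v, hv1, hv2⟩ := exists_rat_btwn (lt_min hl hu1)
  have h4 : 1 < a * ff v := h3 ⟨hv1, hv2.trans_le (min_le_left _ _)⟩
  have h5 : (v:ℝ) ≤ 1 := (hv2.trans_le (min_le_right _ _)).le
  have h6 := LS_empty h1 hx (r := 1 - a * ff v) (by linarith) (hG.low v (hu0.trans hv1.le) h5)
  exact Set.subset_eq_empty (lower_sub ha hx hv1) h6

/-- the densities are close to `u` when the counts are -/
lemma dens_close {S : Set ℕ} {a y α u ε : ℝ} (ha : 0 < a) (hy : 1 < y) (hα : 1 ≤ α)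
    (h : ⌊α * y⌋₊ ∈ BC S a u ε y) : |dens S a y α - u| ≤ ε / a + 1 / (a * Real.log y) := by
  have hl : 0 < Real.log y := Real.log_pos hy
  obtain ⟨h1, h2⟩ := dens_near (S := S) ha hy hα
  have h3 : |(cnt S ⌊α * y⌋₊ ⌊a * Real.log y ^ 2⌋₊ : ℝ) - u * (a * Real.log y)| ≤ ε * Real.log y := h
  rw [abs_le] at h3 ⊢
  have hal : 0 < a * Real.log y := by positivity
  have e : ε / a + 1 / (a * Real.log y) = (ε * Real.log y + 1) / (a * Real.log y) := by
    field_simp
  rw [e]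
  constructor
  · rw [neg_le, div_eq_mul_inv, ← div_eq_mul_inv, le_div_iff₀ hal]
    nlinarith [h3.1, h3.2]
  · rw [le_div_iff₀ hal]
    nlinarith [h3.1, h3.2]

/-- lower bounds for the dimensions -/
theorem lower_dims (h2 : J_D2) {S : Set ℕ} {a : ℝ} (ha : 0 < a) {x : ℕ → ℝ} (hx : Scales x) (hG : Good S a x)
    {u : ℝ} (hu : 0 ≤ u) :
    ENNReal.ofReal (1 - a * ff u) ≤ dimH (Cluster S a x u) ∧
    (Tendsto (fun n => Real.log (x (n + 1)) / Real.log (x n)) atTop atTop →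
      ENNReal.ofReal (1 - a * ff u) ≤ dimH (Limit S a x u)) := by
  rcases le_or_gt 1 (a * ff u) with hc | hc
  · have h0 : ENNReal.ofReal (1 - a * ff u) = 0 := ENNReal.ofReal_eq_zero.mpr (by linarith)
    rw [h0]
    exact ⟨bot_le, fun _ => bot_le⟩
  -- for every `θ` between `a f(u)` and `1`
  have key : ∀ θ : ℝ, a * ff u < θ → θ < 1 → ENNReal.ofReal (1 - θ) ≤ dimH (Cluster S a x u) ∧
      (Tendsto (fun n => Real.log (x (n + 1)) / Real.log (x n)) atTop atTop →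
        ENNReal.ofReal (1 - θ) ≤ dimH (Limit S a x u)) := by
    intro θ hθ hθ1
    have hθ0 : 0 < θ := lt_of_le_of_lt (mul_nonneg ha.le (ff_nonneg hu)) hθ
    obtain ⟨κ, hκ, h3⟩ := exists_diag (fun k n => Thick (BC S a u (1 / ((k : ℝ) + 1)) (x n)) (x n) θ)
      (fun k => hG.thick u (1 / ((k : ℝ) + 1)) θ hu (by positivity) hθ hθ1)
    set B : ℕ → Set ℕ := fun n => BC S a u (1 / ((κ n : ℝ) + 1)) (x n) with hB
    obtain ⟨h4, h5⟩ := h2 x B θ hx hθ0 hθ1 h3
    have h6 : Tendsto (fun n => 1 / ((κ n : ℝ) + 1) / a + 1 / (a * Real.log (x n))) atTop (𝓝 0) := by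
      have e1 : Tendsto (fun n => 1 / ((κ n : ℝ) + 1) / a) atTop (𝓝 (0 / a)) :=
        (tendsto_one_div_add_atTop_nhds_zero_nat.comp hκ).div_const a
      have e2 : Tendsto (fun n => 1 / (a * Real.log (x n))) atTop (𝓝 0) :=
        tendsto_const_nhds.div_atTop ((log_large hx).const_mul_atTop ha)
      have e3 := e1.add e2
      rwa [zero_div, add_zero] at e3
    have h7 : ∀ᶠ n in atTop, 1 < x n := (tendsto_scales hx).eventually_gt_atTop 1
    refine ⟨h4.trans (dimH_mono ?_), fun hg => (h5 hg).trans (dimH_mono ?_)⟩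
    · rintro α ⟨g1, g2, g3⟩
      refine ⟨g1, g2, fun ε hε => ?_⟩
      refine (g3.and_eventually (h7.and (h6.eventually_lt_const hε))).mono ?_
      rintro n ⟨k1, k2, k3⟩
      exact (dens_close ha k2 g1 k1).trans_lt k3
    · rintro α ⟨g1, g2, g3⟩
      refine ⟨g1, g2, ?_⟩
      rw [tendsto_iff_norm_sub_tendsto_zero]
      refine squeeze_zero' (Eventually.of_forall fun n => norm_nonneg _) ?_ h6
      filter_upwards [g3, h7] with n k1 k2
      rw [Real.norm_eq_abs]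
      exact dens_close ha k2 g1 k1
  constructor
  · refine ofReal_le_of_forall_sub fun η hη => ?_
    rcases lt_or_ge (a * ff u + η) 1 with h3 | h3
    · have := (key (a * ff u + η) (by linarith) h3).1
      rwa [show 1 - (a * ff u + η) = 1 - a * ff u - η by ring] at this
    · have h0 : ENNReal.ofReal (1 - a * ff u - η) = 0 := ENNReal.ofReal_eq_zero.mpr (by linarith)
      rw [h0]
      exact bot_le
  · intro hg
    refine ofReal_le_of_forall_sub fun η hη => ?_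
    rcases lt_or_ge (a * ff u + η) 1 with h3 | h3
    · have := (key (a * ff u + η) (by linarith) h3).2 hg
      rwa [show 1 - (a * ff u + η) = 1 - a * ff u - η by ring] at this
    · have h0 : ENNReal.ofReal (1 - a * ff u - η) = 0 := ENNReal.ofReal_eq_zero.mpr (by linarith)
      rw [h0]
      exact bot_le

/-- the spectrum -/
theorem spectrum (h1 : J_D1) (h2 : J_D2) {S : Set ℕ} {a : ℝ} (ha : 0 < a) {x : ℕ → ℝ} (hx : Scales x)
    (hG : Good S a x) (u : ℝ) (hu : 0 ≤ u) :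
    (1 ≤ u → dimH (Upper S a x u) = ENNReal.ofReal (1 - a * ff u) ∧ (1 < a * ff u → Upper S a x u = ∅)) ∧
    (u ≤ 1 → dimH (Lower S a x u) = ENNReal.ofReal (1 - a * ff u) ∧ (1 < a * ff u → Lower S a x u = ∅)) ∧
    dimH (Cluster S a x u) = ENNReal.ofReal (1 - a * ff u) ∧
    (Tendsto (fun n => Real.log (x (n + 1)) / Real.log (x n)) atTop atTop →
      dimH (Limit S a x u) = ENNReal.ofReal (1 - a * ff u)) := by
  obtain ⟨h3, h4⟩ := lower_dims h2 ha hx hG hu
  have h5 : dimH (Cluster S a x u) ≤ ENNReal.ofReal (1 - a * ff u) := by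
    rcases le_total 1 u with h | h
    · exact (dimH_mono cluster_upper).trans (upper_le h1 ha hx hG h)
    · exact (dimH_mono cluster_lower).trans (lower_le h1 ha hx hG hu h)
  refine ⟨fun h => ⟨le_antisymm (upper_le h1 ha hx hG h) (h3.trans (dimH_mono cluster_upper)),
      fun hc => upper_empty h1 ha hx hG h hc⟩,
    fun h => ⟨le_antisymm (lower_le h1 ha hx hG hu h) (h3.trans (dimH_mono cluster_lower)),
      fun hc => lower_empty h1 ha hx hG hu h hc⟩,
    le_antisymm h5 h3, fun hg => le_antisymm ((dimH_mono limit_cluster).trans h5) (h4 hg)⟩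

end Pool.Agent.Q120.SM
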