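import Pool.Agent.Q120.SM.AsmA

set_option autoImplicit false

/-! # Project SM, hand-in 1: almost sure part of the assembly -/

namespace Pool.Agent.Q120.SM

open Finset MeasureTheory Filter Topology Set Pool.Agent.Q120.GM
open scoped ENNReal

/-- the integers of a window -/
def win (m h : ℕ) : Set ℕ := {k | m < k ∧ k ≤ m + h}

open Classical in
lemma cnt_eq (S : Set ℕ) (m h : ℕ) : (cnt S m h : ℝ) = ∑ n ∈ Finset.Ioc m (m + h), if n ∈ S then (1 : ℝ) else 0 := by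
  rw [Finset.sum_ite, Finset.sum_const_zero, add_zero, Finset.sum_const, nsmul_eq_mul, mul_one]
  unfold cnt
  congr 1
  rw [← Set.ncard_coe_finset]
  congr 1
  ext n
  simp only [Set.mem_setOf_eq, Finset.coe_filter, Finset.mem_Ioc]
  tauto

lemma meas_cnt {Ω : Type*} (A : Ω → Set ℕ) (m h : ℕ) :
    Measurable[F A (win m h)] (fun ω => (cnt (A ω) m h : ℝ)) := by
  classical
  have h1 : (fun ω => (cnt (A ω) m h : ℝ)) =
      fun ω => ∑ n ∈ Finset.Ioc m (m + h), if n ∈ A ω then (1 : ℝ) else 0 := by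
    funext ω
    exact cnt_eq (A ω) m h
  rw [h1]
  refine Finset.measurable_sum _ fun n hn => ?_
  rw [Finset.mem_Ioc] at hn
  refine Measurable.ite ?_ measurable_const measurable_const
  exact F_mem (show n ∈ win m h from hn)

lemma F_le_all {Ω : Type*} [MeasurableSpace Ω] {μ : Measure Ω} {p : ℕ → ℝ} {A : Ω → Set ℕ} [IsProbabilityMeasure μ]
    (hA : IsModel μ p A) (m h : ℕ) : F A (win m h) ≤ ‹MeasurableSpace Ω› := F_le hA _

lemma few_mono {B : Set ℕ} {y t t' : ℝ} (hy : 1 ≤ y) (h : t ≤ t') (hf : Few B y t) : Few B y t' :=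
  lt_of_lt_of_le hf (Real.rpow_le_rpow_of_exponent_le hy h)

lemma thick_mono {B B' : Set ℕ} {y θ θ' : ℝ} (hy : 1 ≤ y) (h : θ ≤ θ') (hB : B ⊆ B') (ht : Thick B y θ) :
    Thick B' y θ' := by
  intro w hw hw2
  have h1 : 4 * y ^ (θ - 1) ≤ 4 * y ^ (θ' - 1) := by
    have := Real.rpow_le_rpow_of_exponent_le hy (show θ - 1 ≤ θ' - 1 by linarith)
    linarith
  obtain ⟨m, g1, g2, g3⟩ := ht w hw (by linarith)
  refine ⟨m, hB g1, g2, g3.trans ?_⟩
  have : 0 ≤ y := by linarith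
  exact mul_le_mul_of_nonneg_right (by linarith) this

/-- almost surely the set of the model is good -/
theorem ae_good (hPU : J_PU) (hPL : J_PL) (hCHU : J_CHU) (hCHL : J_CHL) {Ω : Type} [MeasurableSpace Ω] {μ : Measure Ω}
    [IsProbabilityMeasure μ] {p : ℕ → ℝ} {A : Ω → Set ℕ} (hp : Regular p) (hA : IsModel μ p A) {x : ℕ → ℝ}
    (hx : Scales x) {a : ℝ} (ha : 0 < a) : ∀ᵐ ω ∂μ, Good (A ω) a x := by
  have hxt := tendsto_scales hx
  have hx1 : ∀ᶠ n in atTop, 1 ≤ x n := hxt.eventually_ge_atTop 1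
  -- dense positions
  have hU : ∀ v : ℚ, 1 ≤ (v : ℝ) → ∀ k : ℕ, ∀ᵐ ω ∂μ, ∀ᶠ n in atTop,
      Few (BU (A ω) a v (x n)) (x n) (1 - a * ff v + 1 / ((k : ℝ) + 1)) := by
    intro v hv k
    have hk : (0:ℝ) < 1 / ((k : ℝ) + 1) := by positivity
    refine hPU Ω μ x (fun n m => {ω | v * (a * Real.log (x n)) ≤ cnt (A ω) m ⌊a * Real.log (x n) ^ 2⌋₊})
      (a * ff v) hx ?_ ?_ _ hk
    · intro n m
      exact F_le_all hA m _ _ (measurableSet_le measurable_const (meas_cnt A m _))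
    · intro δ hδ
      exact hxt.eventually ((hCHU Ω μ p A hp hA a v δ ha hδ).1 hv)
  -- sparse positions
  have hL : ∀ v : ℚ, 0 ≤ (v : ℝ) → (v : ℝ) ≤ 1 → ∀ k : ℕ, ∀ᵐ ω ∂μ, ∀ᶠ n in atTop,
      Few (BL (A ω) a v (x n)) (x n) (1 - a * ff v + 1 / ((k : ℝ) + 1)) := by
    intro v hv hv1 k
    have hk : (0:ℝ) < 1 / ((k : ℝ) + 1) := by positivity
    refine hPU Ω μ x (fun n m => {ω | (cnt (A ω) m ⌊a * Real.log (x n) ^ 2⌋₊ : ℝ) ≤ v * (a * Real.log (x n))})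
      (a * ff v) hx ?_ ?_ _ hk
    · intro n m
      exact F_le_all hA m _ _ (measurableSet_le (meas_cnt A m _) measurable_const)
    · intro δ hδ
      exact hxt.eventually ((hCHU Ω μ p A hp hA a v δ ha hδ).2 hv hv1)
  -- positions of a given density
  have hT : ∀ u : ℚ, ∀ θ : ℚ, ∀ k : ℕ, 0 ≤ (u : ℝ) → a * ff u < (θ : ℝ) → (θ : ℝ) < 1 → ∀ᵐ ω ∂μ, ∀ᶠ n in atTop,
      Thick (BC (A ω) a u (1 / ((k : ℝ) + 1)) (x n)) (x n) θ := by
    intro u θ k hu hθ hθ1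
    have hk : (0:ℝ) < 1 / ((k : ℝ) + 1) := by positivity
    refine hPL Ω μ p A x (fun n m => {ω | |(cnt (A ω) m ⌊a * Real.log (x n) ^ 2⌋₊ : ℝ) - u * (a * Real.log (x n))| ≤
        1 / ((k : ℝ) + 1) * Real.log (x n)}) (fun n m => win m ⌊a * Real.log (x n) ^ 2⌋₊)
      (fun n => ⌊a * Real.log (x n) ^ 2⌋₊ + 1) (a * ff u) θ hA hx ?_ (mul_nonneg ha.le (ff_nonneg hu)) hθ hθ1
      (fun n => Nat.le_add_left 1 _) ?_ ?_ ?_
    · intro n m
      refine measurableSet_le ?_ measurable_const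
      have h1 := meas_cnt A m ⌊a * Real.log (x n) ^ 2⌋₊
      have h2 : Measurable fun z : ℝ => |z - u * (a * Real.log (x n))| := by fun_prop
      exact h2.comp h1
    · intro δ hδ
      filter_upwards [Pool.Agent.Q120.MF.ev_logpow hxt (a + 1) δ hδ, (log_large hx).eventually_ge_atTop 1]
        with n h1 h2
      push_cast
      have h3 : ((⌊a * Real.log (x n) ^ 2⌋₊ : ℕ) : ℝ) ≤ a * Real.log (x n) ^ 2 := Nat.floor_le (by positivity)
      have h4 : (1:ℝ) ≤ Real.log (x n) ^ 2 := one_le_pow₀ h2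
      have h5 : Real.log (x n) ^ 2 ≤ Real.log (x n) ^ 4 := pow_le_pow_right₀ h2 (by norm_num)
      have h6 : a * Real.log (x n) ^ 2 ≤ a * Real.log (x n) ^ 4 := by gcongr
      linarith
    · filter_upwards with n m m' _ h2 _ _
      rw [Set.disjoint_left]
      rintro k ⟨_, h5⟩ ⟨h6, _⟩
      omega
    · intro δ hδ
      filter_upwards [hxt.eventually (hCHL Ω μ p A hp hA a u (1 / ((k : ℝ) + 1)) δ ha hu hk hδ)] with n h1 m h2 h3
      have h4 := h1 m h2 h3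
      rwa [show -(a * ff (u:ℝ)) - δ = -(a * ff (u:ℝ)) - δ by rfl] at h4
  -- countably many events
  have hU' : ∀ᵐ ω ∂μ, ∀ v : ℚ, 1 ≤ (v : ℝ) → ∀ k : ℕ, ∀ᶠ n in atTop,
      Few (BU (A ω) a v (x n)) (x n) (1 - a * ff v + 1 / ((k : ℝ) + 1)) := by
    rw [ae_all_iff]
    intro v
    by_cases hv : 1 ≤ (v : ℝ)
    · have := ae_all_iff.mpr (hU v hv)
      filter_upwards [this] with ω h _
      exact h
    · exact ae_of_all _ fun ω h => absurd h hv
  have hL' : ∀ᵐ ω ∂μ, ∀ v : ℚ, 0 ≤ (v : ℝ) → (v : ℝ) ≤ 1 → ∀ k : ℕ, ∀ᶠ n in atTop,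
      Few (BL (A ω) a v (x n)) (x n) (1 - a * ff v + 1 / ((k : ℝ) + 1)) := by
    rw [ae_all_iff]
    intro v
    by_cases hv : 0 ≤ (v : ℝ) ∧ (v : ℝ) ≤ 1
    · have := ae_all_iff.mpr (hL v hv.1 hv.2)
      filter_upwards [this] with ω h _ _
      exact h
    · exact ae_of_all _ fun ω h h' => absurd ⟨h, h'⟩ hv
  have hT' : ∀ᵐ ω ∂μ, ∀ u θ : ℚ, ∀ k : ℕ, 0 ≤ (u : ℝ) → a * ff u < (θ : ℝ) → (θ : ℝ) < 1 → ∀ᶠ n in atTop,
      Thick (BC (A ω) a u (1 / ((k : ℝ) + 1)) (x n)) (x n) θ := by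
    rw [ae_all_iff]
    intro u
    rw [ae_all_iff]
    intro θ
    rw [ae_all_iff]
    intro k
    by_cases h : 0 ≤ (u : ℝ) ∧ a * ff u < (θ : ℝ) ∧ (θ : ℝ) < 1
    · filter_upwards [hT u θ k h.1 h.2.1 h.2.2] with ω h1 _ _ _
      exact h1
    · exact ae_of_all _ fun ω h1 h2 h3 => absurd ⟨h1, h2, h3⟩ h
  filter_upwards [hU', hL', hT'] with ω g1 g2 g3
  refine ⟨fun v hv δ hδ => ?_, fun v hv hv1 δ hδ => ?_, fun u ε θ hu hε hθ hθ1 => ?_⟩
  · obtain ⟨k, hk⟩ := exists_nat_one_div_lt hδ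
    filter_upwards [g1 v hv k, hx1] with n h1 h2
    exact few_mono h2 (by linarith) h1
  · obtain ⟨k, hk⟩ := exists_nat_one_div_lt hδ
    filter_upwards [g2 v hv hv1 k, hx1] with n h1 h2
    exact few_mono h2 (by linarith) h1
  · obtain ⟨k, hk⟩ := exists_nat_one_div_lt (half_pos hε)
    obtain ⟨θ', hθ1', hθ2'⟩ := exists_rat_btwn hθ
    -- a rational `q ≥ 0` close to `u`
    have h1 : ∀ᶠ v in 𝓝[>] u, a * ff v < θ' ∧ |v - u| * a < ε / 2 := by
      refine Filter.Eventually.and ?_ ?_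
      · have h3 : Tendsto (fun v => a * ff v) (𝓝[>] u) (𝓝 (a * ff u)) :=
          ((continuous_const.mul ff_cont).tendsto u).mono_left nhdsWithin_le_nhds
        exact h3.eventually_lt_const hθ1'
      · have h3 : Tendsto (fun v : ℝ => |v - u| * a) (𝓝[>] u) (𝓝 (|u - u| * a)) := by
          have h4 : Continuous fun v : ℝ => |v - u| * a := by fun_prop
          exact (h4.tendsto u).mono_left nhdsWithin_le_nhds
        rw [sub_self, abs_zero, zero_mul] at h3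
        exact h3.eventually_lt_const (half_pos hε)
    rw [eventually_iff, mem_nhdsGT_iff_exists_Ioo_subset] at h1
    obtain ⟨l, hl, h2⟩ := h1
    obtain ⟨q, hq1, hq2⟩ := exists_rat_btwn (show u < l from hl)
    obtain ⟨h3, h4⟩ := h2 (show (q : ℝ) ∈ Set.Ioo u l from ⟨hq1, hq2⟩)
    filter_upwards [g3 q θ' k (hu.trans hq1.le) h3 (hθ2'.trans hθ1), hx1, (log_large hx).eventually_ge_atTop 0]
      with n h5 h6 h7
    refine thick_mono h6 hθ2'.le ?_ h5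
    intro m hm
    have h8 : |(cnt (A ω) m ⌊a * Real.log (x n) ^ 2⌋₊ : ℝ) - q * (a * Real.log (x n))| ≤
      1 / ((k : ℝ) + 1) * Real.log (x n) := hm
    show |(cnt (A ω) m ⌊a * Real.log (x n) ^ 2⌋₊ : ℝ) - u * (a * Real.log (x n))| ≤ ε * Real.log (x n)
    have h9 : (cnt (A ω) m ⌊a * Real.log (x n) ^ 2⌋₊ : ℝ) - u * (a * Real.log (x n)) =
      ((cnt (A ω) m ⌊a * Real.log (x n) ^ 2⌋₊ : ℝ) - q * (a * Real.log (x n))) +
        (q - u) * a * Real.log (x n) := by ring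
    rw [h9]
    refine (abs_add_le _ _).trans ?_
    rw [abs_mul, abs_mul, abs_of_pos ha, abs_of_nonneg h7]
    have h10 : |(q:ℝ) - u| * a * Real.log (x n) ≤ ε / 2 * Real.log (x n) := mul_le_mul_of_nonneg_right h4.le h7
    have h11 : 1 / ((k : ℝ) + 1) * Real.log (x n) ≤ ε / 2 * Real.log (x n) := mul_le_mul_of_nonneg_right hk.le h7
    linarith

end Pool.Agent.Q120.SM
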