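import Pool.Agent.Q120.SM.AsmB

set_option autoImplicit false

/-! # Project SM, hand-in 1: the range of the densities -/

namespace Pool.Agent.Q120.SM

open Finset MeasureTheory Filter Topology Set Pool.Agent.Q120.GM
open scoped ENNReal

lemma ff_deriv {u : ℝ} (hu : 0 < u) : HasDerivAt ff (Real.log u) u := by
  have h1 : HasDerivAt (fun u : ℝ => u * Real.log u) (Real.log u + 1) u := Real.hasDerivAt_mul_log hu.ne'
  have h2 : HasDerivAt (fun u : ℝ => 1 - u) (-1) u := by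
    simpa using (hasDerivAt_id u).const_sub 1
  have h3 := h2.add h1
  have e : -1 + (Real.log u + 1) = Real.log u := by ring
  rw [e] at h3
  exact h3

lemma ff_mono : MonotoneOn ff (Set.Ici 1) := by
  refine monotoneOn_of_deriv_nonneg (convex_Ici 1) ff_cont.continuousOn ?_ ?_
  · intro u hu
    rw [interior_Ici] at hu
    have hu : (1:ℝ) < u := hu
    exact (ff_deriv (by linarith)).differentiableAt.differentiableWithinAt
  · intro u hu
    rw [interior_Ici] at hu
    have hu : (1:ℝ) < u := hu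
    rw [(ff_deriv (by linarith)).deriv]
    exact Real.log_nonneg hu.le

lemma ff_anti : AntitoneOn ff (Set.Icc 0 1) := by
  refine antitoneOn_of_deriv_nonpos (convex_Icc 0 1) ff_cont.continuousOn ?_ ?_
  · intro u hu
    rw [interior_Icc] at hu
    exact (ff_deriv hu.1).differentiableAt.differentiableWithinAt
  · intro u hu
    rw [interior_Icc] at hu
    rw [(ff_deriv hu.1).deriv]
    exact Real.log_nonpos hu.1.le hu.2.le

lemma ff_zero : ff 0 = 1 := by simp [ff]

lemma ff_large : ∀ C : ℝ, ∃ u : ℝ, 1 < u ∧ C < ff u := by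
  intro C
  refine ⟨Real.exp (|C| + 2), ?_, ?_⟩
  · have : (0:ℝ) < |C| + 2 := by positivity
    exact Real.one_lt_exp_iff.mpr this
  · unfold ff
    rw [Real.log_exp]
    have h1 : |C| + 2 + 1 ≤ Real.exp (|C| + 2) := Real.add_one_le_exp _
    have h2 := le_abs_self C
    have h3 := abs_nonneg C
    nlinarith

lemma floor_pos {y α : ℝ} (hy : 0 < y) (h1 : 1 ≤ α) (h2 : α ≤ 2) : y - 1 < (⌊α * y⌋₊ : ℝ) ∧ (⌊α * y⌋₊ : ℝ) ≤ 2 * y := by
  constructor
  · have := Nat.lt_floor_add_one (α * y)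
    nlinarith
  · refine (Nat.floor_le (by positivity)).trans ?_
    nlinarith

/-- uniform bound from above -/
lemma unif_up (h1 : J_D1) {S : Set ℕ} {a : ℝ} (ha : 0 < a) {x : ℕ → ℝ} (hx : Scales x) (hG : Good S a x)
    (v : ℚ) (hv : 1 ≤ (v : ℝ)) (hc : 1 < a * ff v) {w : ℝ} (hw : (v : ℝ) < w) :
    ∀ᶠ n in atTop, ∀ α : ℝ, 1 ≤ α → α ≤ 2 → dens S a (x n) α < w := by
  have h2 := hG.up v hv ((a * ff v - 1) / 2) (by linarith)
  have h3 := ((h1 x (fun n => BU S a v (x n)) hx).2 (1 - a * ff v + (a * ff v - 1) / 2) (by linarith) h2).1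
  have h4 : ∀ᶠ n in atTop, 1 < x n := (tendsto_scales hx).eventually_gt_atTop 1
  have h5 : ∀ᶠ n in atTop, 1 / ((w - v) * a) ≤ Real.log (x n) := (log_large hx).eventually_ge_atTop _
  filter_upwards [h3, h4, h5] with n g1 g2 g3 α hα1 hα2
  have hl : 0 < Real.log (x n) := Real.log_pos g2
  obtain ⟨k1, k2⟩ := floor_pos (show 0 < x n by linarith) hα1 hα2
  have g4 : ⌊α * x n⌋₊ ∉ BU S a v (x n) := fun h => g1 _ h k1 k2
  have g5 : (cnt S ⌊α * x n⌋₊ ⌊a * Real.log (x n) ^ 2⌋₊ : ℝ) < v * (a * Real.log (x n)) := not_le.mp g4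
  have g6 := (dens_near (S := S) ha g2 hα1).2
  have hwa : 0 < (w - v) * a := mul_pos (by linarith) ha
  rw [div_le_iff₀ hwa] at g3
  have hal : 0 < a * Real.log (x n) := by positivity
  refine lt_of_mul_lt_mul_right ?_ hal.le
  nlinarith

/-- uniform bound from below -/
lemma unif_low (h1 : J_D1) {S : Set ℕ} {a : ℝ} (ha : 0 < a) {x : ℕ → ℝ} (hx : Scales x) (hG : Good S a x)
    (v : ℚ) (hv0 : 0 ≤ (v : ℝ)) (hv : (v : ℝ) ≤ 1) (hc : 1 < a * ff v) :
    ∀ᶠ n in atTop, ∀ α : ℝ, 1 ≤ α → α ≤ 2 → (v : ℝ) < dens S a (x n) α := by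
  have h2 := hG.low v hv0 hv ((a * ff v - 1) / 2) (by linarith)
  have h3 := ((h1 x (fun n => BL S a v (x n)) hx).2 (1 - a * ff v + (a * ff v - 1) / 2) (by linarith) h2).1
  have h4 : ∀ᶠ n in atTop, 1 < x n := (tendsto_scales hx).eventually_gt_atTop 1
  filter_upwards [h3, h4] with n g1 g2 α hα1 hα2
  have hl : 0 < Real.log (x n) := Real.log_pos g2
  obtain ⟨k1, k2⟩ := floor_pos (show 0 < x n by linarith) hα1 hα2
  have g4 : ⌊α * x n⌋₊ ∉ BL S a v (x n) := fun h => g1 _ h k1 k2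
  have g5 : v * (a * Real.log (x n)) < (cnt S ⌊α * x n⌋₊ ⌊a * Real.log (x n) ^ 2⌋₊ : ℝ) := not_le.mp g4
  have g6 := (dens_near (S := S) ha g2 hα1).1
  have hal : 0 < a * Real.log (x n) := by positivity
  refine lt_of_mul_lt_mul_right ?_ hal.le
  linarith

/-- the densities of the windows of one scale: no others -/
theorem range_sub (h1 : J_D1) {S : Set ℕ} {a : ℝ} (ha : 0 < a) {x : ℕ → ℝ} (hx : Scales x) (hG : Good S a x)
    {η : ℝ} (hη : 0 < η) : ∀ᶠ n in atTop, ∀ α : ℝ, 1 ≤ α → α ≤ 2 → a * ff (dens S a (x n) α) ≤ 1 + η := by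
  have hcont : Continuous fun u => a * ff u := continuous_const.mul ff_cont
  -- a bound from above
  obtain ⟨w, hw1, hw2, hw3⟩ : ∃ w : ℝ, 1 < w ∧ 1 < a * ff w ∧ a * ff w ≤ 1 + η := by
    obtain ⟨C, hC1, hC2⟩ := ff_large ((1 + η) / a)
    have h2 : 1 + η < a * ff C := by
      rw [div_lt_iff₀ ha] at hC2
      linarith
    have h3 : Set.Icc (a * ff 1) (a * ff C) ⊆ (fun u => a * ff u) '' Set.Icc 1 C :=
      intermediate_value_Icc hC1.le hcont.continuousOn
    obtain ⟨w, hw, hw'⟩ := h3 (show 1 + η ∈ Set.Icc (a * ff 1) (a * ff C) from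
      ⟨by rw [ff_one]; linarith, h2.le⟩)
    have hw' : a * ff w = 1 + η := hw'
    refine ⟨w, ?_, by linarith, hw'.le⟩
    rcases hw.1.eq_or_lt with h | h
    · rw [← h, ff_one] at hw'
      linarith
    · exact h
  have hup : ∀ᶠ n in atTop, ∀ α : ℝ, 1 ≤ α → α ≤ 2 → dens S a (x n) α < w := by
    have h2 : ∀ᶠ v in 𝓝[<] w, 1 < a * ff v :=
      ((hcont.tendsto w).mono_left nhdsWithin_le_nhds).eventually_const_lt hw2
    rw [eventually_iff, mem_nhdsLT_iff_exists_Ioo_subset] at h2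
    obtain ⟨l, hl, h3⟩ := h2
    have hl : l < w := hl
    obtain ⟨v, hv1, hv2⟩ := exists_rat_btwn (max_lt hl hw1)
    have h4 : 1 < a * ff v := h3 ⟨(le_max_left _ _).trans_lt hv1, hv2⟩
    exact unif_up h1 ha hx hG v ((le_max_right _ _).trans_lt hv1).le h4 hv2
  have hpos : ∀ᶠ n in atTop, ∀ α : ℝ, 1 ≤ α → α ≤ 2 → 0 ≤ dens S a (x n) α := by
    filter_upwards [(log_large hx).eventually_ge_atTop 0] with n hn α _ _
    unfold dens
    positivity
  -- a bound from below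
  rcases le_or_gt a 1 with h | h
  · filter_upwards [hup, hpos] with n g1 g2 α hα1 hα2
    rcases le_total 1 (dens S a (x n) α) with h2 | h2
    · have h3 := ff_mono h2 (show w ∈ Set.Ici 1 from hw1.le) (g1 α hα1 hα2).le
      have := mul_le_mul_of_nonneg_left h3 ha.le
      linarith
    · have h3 := ff_anti (show (0:ℝ) ∈ Set.Icc 0 1 by simp) ⟨g2 α hα1 hα2, h2⟩ (g2 α hα1 hα2)
      rw [ff_zero] at h3
      have := mul_le_mul_of_nonneg_left h3 ha.le
      linarith
  · -- `a > 1`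
    obtain ⟨v, hv0, hv1, hv2, hv3⟩ : ∃ v : ℚ, 0 ≤ (v : ℝ) ∧ (v : ℝ) ≤ 1 ∧ 1 < a * ff v ∧ a * ff v ≤ 1 + η := by
      rcases le_or_gt a (1 + η) with h2 | h2
      · refine ⟨0, by simp, by simp, ?_, ?_⟩
        · rw [Rat.cast_zero, ff_zero]; linarith
        · rw [Rat.cast_zero, ff_zero]; linarith
      · -- a value with `a f = 1 + η / 2`
        have h3 : Set.Icc (a * ff 1) (a * ff 0) ⊆ (fun u => a * ff u) '' Set.Icc 0 1 :=
          intermediate_value_Icc' zero_le_one hcont.continuousOn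
        obtain ⟨z, hz, hz'⟩ := h3 (show 1 + η / 2 ∈ Set.Icc (a * ff 1) (a * ff 0) from
          ⟨by rw [ff_one]; linarith, by rw [ff_zero]; linarith⟩)
        have hz' : a * ff z = 1 + η / 2 := hz'
        have hz1 : z < 1 := by
          rcases hz.2.eq_or_lt with h4 | h4
          · rw [h4, ff_one] at hz'
            linarith
          · exact h4
        have h4 : ∀ᶠ v in 𝓝[>] z, 1 < a * ff v :=
          ((hcont.tendsto z).mono_left nhdsWithin_le_nhds).eventually_const_lt (by linarith)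
        rw [eventually_iff, mem_nhdsGT_iff_exists_Ioo_subset] at h4
        obtain ⟨l, hl, h5⟩ := h4
        have hl : z < l := hl
        obtain ⟨v, hv1, hv2⟩ := exists_rat_btwn (lt_min hl hz1)
        have h6 : 1 < a * ff v := h5 ⟨hv1, hv2.trans_le (min_le_left _ _)⟩
        have h7 : (v:ℝ) ≤ 1 := (hv2.trans_le (min_le_right _ _)).le
        refine ⟨v, hz.1.trans hv1.le, h7, h6, ?_⟩
        have h8 := ff_anti hz ⟨hz.1.trans hv1.le, h7⟩ hv1.le
        have := mul_le_mul_of_nonneg_left h8 ha.le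
        linarith
    filter_upwards [hup, hpos, unif_low h1 ha hx hG v hv0 hv1 hv2] with n g1 g2 g3 α hα1 hα2
    rcases le_total 1 (dens S a (x n) α) with h2 | h2
    · have h3 := ff_mono h2 (show w ∈ Set.Ici 1 from hw1.le) (g1 α hα1 hα2).le
      have := mul_le_mul_of_nonneg_left h3 ha.le
      linarith
    · have h3 := ff_anti ⟨hv0, hv1⟩ ⟨g2 α hα1 hα2, h2⟩ (g3 α hα1 hα2).le
      have := mul_le_mul_of_nonneg_left h3 ha.le
      linarith

/-- the densities of the windows of one scale: all of them -/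
theorem range_sup {S : Set ℕ} {a : ℝ} (ha : 0 < a) {x : ℕ → ℝ} (hx : Scales x) (hG : Good S a x)
    {u : ℝ} (hu : 0 ≤ u) (hc : a * ff u < 1) {ε : ℝ} (hε : 0 < ε) :
    ∀ᶠ n in atTop, ∃ α : ℝ, 1 ≤ α ∧ α ≤ 2 ∧ |dens S a (x n) α - u| < ε := by
  obtain ⟨θ, hθ1, hθ2⟩ := exists_between hc
  have hε' : 0 < ε * a / 2 := by positivity
  have h1 := hG.thick u (ε * a / 2) θ hu hε' hθ1 hθ2
  have hxt := tendsto_scales hx
  have h2 : Tendsto (fun n => 4 * x n ^ (θ - 1)) atTop (𝓝 0) := by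
    have h3 : Tendsto (fun y : ℝ => y ^ (-(1 - θ))) atTop (𝓝 0) := tendsto_rpow_neg_atTop (by linarith)
    have h4 := (h3.comp hxt).const_mul 4
    rw [mul_zero] at h4
    refine h4.congr fun n => ?_
    simp only [Function.comp_apply]
    rw [neg_sub]
  have h5 : Tendsto (fun n => 1 / (a * Real.log (x n))) atTop (𝓝 0) :=
    tendsto_const_nhds.div_atTop ((log_large hx).const_mul_atTop ha)
  filter_upwards [h1, h2.eventually_le_const (show (0:ℝ) < 1 by norm_num), h5.eventually_lt_const (half_pos hε),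
    hxt.eventually_gt_atTop 1] with n g1 g2 g3 g4
  have hx0 : 0 < x n := by linarith
  obtain ⟨m, k1, k2, k3⟩ := g1 1 le_rfl (by linarith)
  -- `α = m / x_n`
  have k4 : 1 ≤ (m : ℝ) / x n := by rw [le_div_iff₀ hx0]; linarith
  have k5 : (m : ℝ) / x n ≤ 2 := by
    rw [div_le_iff₀ hx0]
    have : (1 + 4 * x n ^ (θ - 1)) * x n ≤ 2 * x n := mul_le_mul_of_nonneg_right (by linarith) hx0.le
    linarith
  refine ⟨(m : ℝ) / x n, k4, k5, ?_⟩
  have k6 : ⌊(m : ℝ) / x n * x n⌋₊ = m := by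
    rw [div_mul_cancel₀ _ hx0.ne', Nat.floor_natCast]
  have k7 := dens_close ha g4 k4 (show ⌊(m : ℝ) / x n * x n⌋₊ ∈ BC S a u (ε * a / 2) (x n) by rw [k6]; exact k1)
  refine k7.trans_lt ?_
  have : ε * a / 2 / a = ε / 2 := by field_simp
  rw [this]
  linarith

end Pool.Agent.Q120.SM
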