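import Pool.Agent.Q120.SM.AsmB

set_option autoImplicit false

/-! # Project SM, hand-in 2: assembly -/

namespace Pool.Agent.Q120.SM

open Finset MeasureTheory Filter Topology Set Pool.Agent.Q120.GM Polynomial
open scoped ENNReal

/-- no occurrence in `(y, y + h]` -/
def FreeOcc (S : Set ℕ) {k : ℕ} (P : Fin k → ℤ[X]) (y h : ℝ) : Prop := ∀ n : ℕ, y < n → (n : ℝ) ≤ y + h → ¬ Occ S P n

/-- no occurrence in `(α x_n, α x_n + c L(x_n)]` for infinitely many `n` -/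
def GOften (S : Set ℕ) (Q : ℕ) {k : ℕ} (P : Fin k → ℤ[X]) (x : ℕ → ℝ) (c : ℝ) : Set ℝ :=
  {α | 1 ≤ α ∧ α ≤ 2 ∧ ∃ᶠ n in atTop, FreeOcc S P (α * x n) (c * LF Q k P (x n))}

/-- no occurrence in `(α x_n, α x_n + c L(x_n)]` for all large `n` -/
def GAlways (S : Set ℕ) (Q : ℕ) {k : ℕ} (P : Fin k → ℤ[X]) (x : ℕ → ℝ) (c : ℝ) : Set ℝ :=
  {α | 1 ≤ α ∧ α ≤ 2 ∧ ∀ᶠ n in atTop, FreeOcc S P (α * x n) (c * LF Q k P (x n))}

/-- positions of free windows -/
def BF (S : Set ℕ) (Q : ℕ) {k : ℕ} (P : Fin k → ℤ[X]) (c y : ℝ) : Set ℕ := {m | NoOcc S P m ⌊c * LF Q k P y⌋₊}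

lemma LF_pos {Q k : ℕ} {P : Fin k → ℤ[X]} (hP : Sys k P) (hS : 0 < SQ Q k P) {y : ℝ} (hy : 1 < y) : 0 < LF Q k P y := by
  unfold LF
  have h1 : 0 < ∏ i, ((P i).natDegree : ℝ) := Finset.prod_pos fun i _ => by exact_mod_cast hP.deg i
  have h2 : 0 < Real.log y := Real.log_pos hy
  positivity

lemma LF_large {Q k : ℕ} {P : Fin k → ℤ[X]} (hP : Sys k P) (hS : 0 < SQ Q k P) {x : ℕ → ℝ} (hx : Scales x) :
    Tendsto (fun n => LF Q k P (x n)) atTop atTop := by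
  unfold LF
  have h1 : 0 < ∏ i, ((P i).natDegree : ℝ) := Finset.prod_pos fun i _ => by exact_mod_cast hP.deg i
  refine Tendsto.const_mul_atTop (by positivity) ?_
  exact (tendsto_pow_atTop (Nat.succ_ne_zero k)).comp (log_large hx)

lemma LF_small {Q k : ℕ} (P : Fin k → ℤ[X]) (C δ : ℝ) (hδ : 0 < δ) {x : ℕ → ℝ} (hx : Scales x) :
    ∀ᶠ n in atTop, C * LF Q k P (x n) ≤ x n ^ δ := by
  set D : ℝ := C * ((∏ i, ((P i).natDegree : ℝ)) / SQ Q k P) with hD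
  have h1 := (isLittleO_log_rpow_rpow_atTop ((k + 1 : ℕ) : ℝ) hδ).bound (show (0 : ℝ) < 1 / (|D| + 1) by positivity)
  filter_upwards [(tendsto_scales hx).eventually h1, (tendsto_scales hx).eventually_ge_atTop 1] with n hn hn1
  have hlog : 0 ≤ Real.log (x n) := Real.log_nonneg hn1
  have hx0 : 0 ≤ x n := by linarith
  rw [Real.norm_of_nonneg (by positivity), Real.norm_of_nonneg (by positivity), Real.rpow_natCast] at hn
  have h5 : (|D| + 1) * Real.log (x n) ^ (k + 1) ≤ x n ^ δ := by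
    have := mul_le_mul_of_nonneg_left hn (show 0 ≤ |D| + 1 by positivity)
    rwa [← mul_assoc, mul_one_div_cancel (by positivity), one_mul] at this
  have h6 : D * Real.log (x n) ^ (k + 1) ≤ (|D| + 1) * Real.log (x n) ^ (k + 1) :=
    mul_le_mul_of_nonneg_right (by linarith [le_abs_self D]) (by positivity)
  have h7 : C * LF Q k P (x n) = D * Real.log (x n) ^ (k + 1) := by
    unfold LF
    rw [hD]; ring
  rw [h7]
  linarith

lemma goften_sub {S : Set ℕ} {Q k : ℕ} {P : Fin k → ℤ[X]} {x : ℕ → ℝ} (hx : Scales x) (hP : Sys k P)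
    (hS : 0 < SQ Q k P) {c : ℝ} (hc : 0 ≤ c) : GOften S Q P x c ⊆ LS x (fun n => BF S Q P c (x n)) := by
  rintro α ⟨h1, h2, h3⟩
  refine ⟨h1, h2, (h3.and_eventually ((tendsto_scales hx).eventually_gt_atTop 1)).mono ?_⟩
  rintro n ⟨g1, g2⟩ m hm1 hm2
  have hL : 0 < LF Q k P (x n) := LF_pos hP hS g2
  refine g1 m ?_ ?_
  · have h4 := Nat.lt_floor_add_one (α * x n)
    have h5 : ((⌊α * x n⌋₊ + 1 : ℕ) : ℝ) ≤ m := by exact_mod_cast hm1
    push_cast at h5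
    linarith
  · have h4 : ((⌊α * x n⌋₊ : ℕ) : ℝ) ≤ α * x n := Nat.floor_le (by nlinarith)
    have h5 : ((⌊c * LF Q k P (x n)⌋₊ : ℕ) : ℝ) ≤ c * LF Q k P (x n) := Nat.floor_le (by positivity)
    have h6 : (m : ℝ) ≤ ((⌊α * x n⌋₊ + ⌊c * LF Q k P (x n)⌋₊ : ℕ) : ℝ) := by exact_mod_cast hm2
    push_cast at h6
    linarith

/-- free windows at an integer position give free real windows -/
lemma free_of_BF {S : Set ℕ} {Q k : ℕ} {P : Fin k → ℤ[X]} {y c c' α : ℝ} (hy : 1 < y) (hα : 1 ≤ α)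
    (hL : 2 ≤ (c' - c) * LF Q k P y) (h : ⌊α * y⌋₊ ∈ BF S Q P c' y) :
    FreeOcc S P (α * y) (c * LF Q k P y) := by
  intro n hn1 hn2
  refine h n ?_ ?_
  · have h4 : ((⌊α * y⌋₊ : ℕ) : ℝ) ≤ α * y := Nat.floor_le (by nlinarith)
    have : ((⌊α * y⌋₊ : ℕ) : ℝ) < n := by linarith
    exact_mod_cast this
  · have h4 := Nat.lt_floor_add_one (α * y)
    have h5 := Nat.lt_floor_add_one (c' * LF Q k P y)
    have h6 : (n : ℝ) < ((⌊α * y⌋₊ + ⌊c' * LF Q k P y⌋₊ : ℕ) : ℝ) := by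
      push_cast
      nlinarith
    have h7 : n < ⌊α * y⌋₊ + ⌊c' * LF Q k P y⌋₊ := by exact_mod_cast h6
    exact h7.le

lemma gap_ev {Q k : ℕ} {P : Fin k → ℤ[X]} {x : ℕ → ℝ} (hx : Scales x) (hP : Sys k P)
    (hS : 0 < SQ Q k P) {c c' : ℝ} (h : c < c') : ∀ᶠ n in atTop, 2 ≤ (c' - c) * LF Q k P (x n) := by
  have := (LF_large hP hS hx).const_mul_atTop (show 0 < c' - c by linarith)
  exact this.eventually_ge_atTop 2

lemma goften_sup {S : Set ℕ} {Q k : ℕ} {P : Fin k → ℤ[X]} {x : ℕ → ℝ} (hx : Scales x) (hP : Sys k P)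
    (hS : 0 < SQ Q k P) {c c' : ℝ} (h : c < c') : LS x (fun n => BF S Q P c' (x n)) ⊆ GOften S Q P x c := by
  rintro α ⟨h1, h2, h3⟩
  refine ⟨h1, h2, (h3.and_eventually (((tendsto_scales hx).eventually_gt_atTop 1).and (gap_ev hx hP hS h))).mono ?_⟩
  rintro n ⟨g1, g2, g3⟩
  exact free_of_BF g2 h1 g3 g1

lemma galways_sup {S : Set ℕ} {Q k : ℕ} {P : Fin k → ℤ[X]} {x : ℕ → ℝ} (hx : Scales x) (hP : Sys k P)
    (hS : 0 < SQ Q k P) {c c' : ℝ} (h : c < c') : LI x (fun n => BF S Q P c' (x n)) ⊆ GAlways S Q P x c := by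
  rintro α ⟨h1, h2, h3⟩
  refine ⟨h1, h2, ?_⟩
  filter_upwards [h3, (tendsto_scales hx).eventually_gt_atTop 1, gap_ev hx hP hS h] with n g1 g2 g3
  exact free_of_BF g2 h1 g3 g1

lemma galways_sub {S : Set ℕ} {Q k : ℕ} {P : Fin k → ℤ[X]} {x : ℕ → ℝ} {c : ℝ} : GAlways S Q P x c ⊆ GOften S Q P x c :=
  fun _ h => ⟨h.1, h.2.1, h.2.2.frequently⟩

lemma goften_anti {S : Set ℕ} {Q k : ℕ} {P : Fin k → ℤ[X]} {x : ℕ → ℝ} (hx : Scales x) (hP : Sys k P)
    (hS : 0 < SQ Q k P) {c c' : ℝ} (h : c ≤ c') : GOften S Q P x c' ⊆ GOften S Q P x c := by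
  rintro α ⟨h1, h2, h3⟩
  refine ⟨h1, h2, (h3.and_eventually ((tendsto_scales hx).eventually_gt_atTop 1)).mono ?_⟩
  rintro n ⟨g1, g2⟩ m hm1 hm2
  have hL : 0 < LF Q k P (x n) := LF_pos hP hS g2
  refine g1 m hm1 (hm2.trans ?_)
  nlinarith

/-- what is needed of the set, for one system -/
structure GoodP (S : Set ℕ) (Q k : ℕ) (P : Fin k → ℤ[X]) (x : ℕ → ℝ) : Prop where
  few : ∀ c : ℚ, 0 < (c : ℝ) → ∀ δ : ℝ, 0 < δ → ∀ᶠ n in atTop, Few (BF S Q P c (x n)) (x n) (1 - c + δ)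
  thick : ∀ c θ : ℚ, 0 < (c : ℝ) → (c : ℝ) < θ → (θ : ℝ) < 1 → ∀ᶠ n in atTop, Thick (BF S Q P c (x n)) (x n) θ

theorem spectrumP (h1 : J_D1) (h2 : J_D2) {S : Set ℕ} {Q k : ℕ} {P : Fin k → ℤ[X]} {x : ℕ → ℝ} (hx : Scales x)
    (hP : Sys k P) (hS : 0 < SQ Q k P) (hG : GoodP S Q k P x) (c : ℝ) (hc : 0 ≤ c) :
    dimH (GOften S Q P x c) = ENNReal.ofReal (1 - c) ∧ (1 < c → GOften S Q P x c = ∅) ∧
    (Tendsto (fun n => Real.log (x (n + 1)) / Real.log (x n)) atTop atTop →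
      dimH (GAlways S Q P x c) = ENNReal.ofReal (1 - c)) := by
  have hup : dimH (GOften S Q P x c) ≤ ENNReal.ofReal (1 - c) := by
    rcases hc.eq_or_lt with h | h
    · rw [← h, sub_zero, ENNReal.ofReal_one]
      exact dimH_le_one _
    · refine le_of_forall_add fun η hη => ?_
      obtain ⟨c', h3, h4⟩ := exists_rat_btwn (show max (c - η) (c / 2) < c from max_lt (by linarith) (by linarith))
      have h5 : c - η < c' := (le_max_left _ _).trans_lt h3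
      have h6 : (0:ℝ) < c' := lt_trans (by linarith) ((le_max_right _ _).trans_lt h3)
      refine (dimH_mono ((goften_anti hx hP hS h4.le).trans (goften_sub hx hP hS h6.le))).trans
        ((dimH_LS_le h1 hx (hG.few c' h6)).trans ?_)
      exact ENNReal.ofReal_le_ofReal (by linarith)
  have hempty : 1 < c → GOften S Q P x c = ∅ := by
    intro h
    obtain ⟨c', h3, h4⟩ := exists_rat_btwn h
    have h6 : (0:ℝ) < c' := by linarith
    have h7 := LS_empty h1 hx (r := 1 - c') (by linarith) (hG.few c' h6)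
    exact Set.subset_eq_empty ((goften_anti hx hP hS h4.le).trans (goften_sub hx hP hS h6.le)) h7
  have hlow : ∀ η : ℝ, 0 < η → ENNReal.ofReal (1 - c - η) ≤ dimH (GOften S Q P x c) ∧
      (Tendsto (fun n => Real.log (x (n + 1)) / Real.log (x n)) atTop atTop →
        ENNReal.ofReal (1 - c - η) ≤ dimH (GAlways S Q P x c)) := by
    intro η hη
    rcases le_or_gt 1 (c + η) with h3 | h3
    · have h0 : ENNReal.ofReal (1 - c - η) = 0 := ENNReal.ofReal_eq_zero.mpr (by linarith)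
      rw [h0]
      exact ⟨bot_le, fun _ => bot_le⟩
    · obtain ⟨c', h4, h5⟩ := exists_rat_btwn (show c < c + η by linarith)
      obtain ⟨θ, h6, h7⟩ := exists_rat_btwn h5
      have h8 : (0:ℝ) < c' := by linarith
      have h9 : (0:ℝ) < θ := by linarith
      obtain ⟨g1, g2⟩ := h2 x (fun n => BF S Q P c' (x n)) θ hx h9 (by linarith)
        (hG.thick c' θ h8 h6 (by linarith))
      have h10 : ENNReal.ofReal (1 - c - η) ≤ ENNReal.ofReal (1 - θ) := ENNReal.ofReal_le_ofReal (by linarith)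
      exact ⟨h10.trans (g1.trans (dimH_mono (goften_sup hx hP hS h4))),
        fun hg => h10.trans ((g2 hg).trans (dimH_mono (galways_sup hx hP hS h4)))⟩
  refine ⟨le_antisymm hup (ofReal_le_of_forall_sub fun η hη => (hlow η hη).1), hempty, fun hg =>
    le_antisymm ((dimH_mono galways_sub).trans hup) (ofReal_le_of_forall_sub fun η hη => (hlow η hη).2 hg)⟩

/-- the events of an occurrence are determined by the values -/
lemma meas_occ {Ω : Type*} (A : Ω → Set ℕ) {k : ℕ} (P : Fin k → ℤ[X]) (m h n : ℕ) (h1 : m < n) (h2 : n ≤ m + h) :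
    MeasurableSet[F A (vals P m h)] {ω | Occ (A ω) P n} := by
  have h3 : {ω | Occ (A ω) P n} = ⋂ i : Fin k, {ω | ∃ v ∈ A ω, (v : ℤ) = (P i).eval (n : ℤ)} := by
    ext ω
    simp only [Occ, Set.mem_setOf_eq, Set.mem_iInter]
  rw [h3]
  refine MeasurableSet.iInter fun i => ?_
  by_cases h4 : ∃ v : ℕ, (v : ℤ) = (P i).eval (n : ℤ)
  · obtain ⟨v, hv⟩ := h4
    have h5 : {ω | ∃ w ∈ A ω, (w : ℤ) = (P i).eval (n : ℤ)} = {ω | v ∈ A ω} := by
      ext ω
      simp only [Set.mem_setOf_eq]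
      constructor
      · rintro ⟨w, hw, hw'⟩
        have : w = v := by
          have : (w : ℤ) = v := by rw [hw', hv]
          exact_mod_cast this
        rwa [← this]
      · intro hv'
        exact ⟨v, hv', hv⟩
    rw [h5]
    exact F_mem (show v ∈ vals P m h from ⟨n, i, h1, h2, hv⟩)
  · have h5 : {ω | ∃ w ∈ A ω, (w : ℤ) = (P i).eval (n : ℤ)} = ∅ := by
      ext ω
      simp only [Set.mem_setOf_eq, Set.mem_empty_iff_false, iff_false]
      rintro ⟨w, _, hw⟩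
      exact h4 ⟨w, hw⟩
    rw [h5]
    exact @MeasurableSet.empty Ω (F A (vals P m h))

lemma meas_noOcc {Ω : Type*} (A : Ω → Set ℕ) {k : ℕ} (P : Fin k → ℤ[X]) (m h : ℕ) :
    MeasurableSet[F A (vals P m h)] {ω | NoOcc (A ω) P m h} := by
  have h3 : {ω | NoOcc (A ω) P m h} = ⋂ n ∈ Finset.Ioc m (m + h), {ω | Occ (A ω) P n}ᶜ := by
    ext ω
    simp only [NoOcc, Set.mem_setOf_eq, Set.mem_iInter, Finset.mem_Ioc, Set.mem_compl_iff]
    constructor
    · intro g n hn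
      exact g n hn.1 hn.2
    · intro g n hn1 hn2
      exact g n ⟨hn1, hn2⟩
  rw [h3]
  refine Finset.measurableSet_biInter _ fun n hn => ?_
  rw [Finset.mem_Ioc] at hn
  exact (meas_occ A P m h n hn.1 hn.2).compl

/-- almost surely the set of the model is good for one system -/
theorem ae_goodP (hPU : J_PU) (hPL : J_PL) (hSEP : J_SEP) (hGAP : J_GAP) {Ω : Type} [MeasurableSpace Ω] {μ : Measure Ω}
    [IsProbabilityMeasure μ] {A : Ω → Set ℕ} {Q k : ℕ} (hQ : 1 ≤ Q) (hA : IsModel μ (level Q) A) {x : ℕ → ℝ}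
    (hx : Scales x) {P : Fin k → ℤ[X]} (hP : Sys k P) (hS : 0 < SQ Q k P) : ∀ᵐ ω ∂μ, GoodP (A ω) Q k P x := by
  have hxt := tendsto_scales hx
  have hx1 : ∀ᶠ n in atTop, 1 ≤ x n := hxt.eventually_ge_atTop 1
  have hU : ∀ c : ℚ, 0 < (c : ℝ) → ∀ j : ℕ, ∀ᵐ ω ∂μ, ∀ᶠ n in atTop,
      Few (BF (A ω) Q P c (x n)) (x n) (1 - c + 1 / ((j : ℝ) + 1)) := by
    intro c hc j
    have hj : (0:ℝ) < 1 / ((j : ℝ) + 1) := by positivity
    refine hPU Ω μ x (fun n m => {ω | NoOcc (A ω) P m ⌊c * LF Q k P (x n)⌋₊}) c hx ?_ ?_ _ hj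
    · intro n m
      exact F_le hA _ _ (meas_noOcc A P m _)
    · intro δ hδ
      filter_upwards [hxt.eventually (hGAP Ω μ A Q k P hQ hA hP hS c δ hc hδ)] with n h1 m h2 h3
      exact (h1 m h2 h3).1
  have hT : ∀ c θ : ℚ, 0 < (c : ℝ) → (c : ℝ) < θ → (θ : ℝ) < 1 → ∀ᵐ ω ∂μ, ∀ᶠ n in atTop,
      Thick (BF (A ω) Q P c (x n)) (x n) θ := by
    intro c θ hc hθ hθ1
    obtain ⟨D, hD⟩ := hSEP k P hP θ (hc.trans hθ) hθ1
    refine hPL Ω μ (level Q) A x (fun n m => {ω | NoOcc (A ω) P m ⌊c * LF Q k P (x n)⌋₊})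
      (fun n m => vals P m ⌊c * LF Q k P (x n)⌋₊) (fun n => ⌊c * LF Q k P (x n)⌋₊ + D + 1) c θ hA hx
      (fun n m => meas_noOcc A P m _) hc.le hθ hθ1 (fun n => Nat.le_add_left 1 _) ?_ ?_ ?_
    · intro δ hδ
      filter_upwards [LF_small P (c + 1) δ hδ hx, (LF_large hP hS hx).eventually_ge_atTop ((D : ℝ) + 1)]
        with n h1 h2
      have h3 : ((⌊c * LF Q k P (x n)⌋₊ : ℕ) : ℝ) ≤ c * LF Q k P (x n) := by
        refine Nat.floor_le ?_
        have : (0:ℝ) ≤ (D:ℝ) := D.cast_nonneg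
        have h4 : 0 ≤ LF Q k P (x n) := by linarith
        positivity
      push_cast
      linarith
    · filter_upwards [hxt.eventually hD, LF_small P c θ (hc.trans hθ) hx, (LF_large hP hS hx).eventually_ge_atTop 0]
        with n h1 h2 h5 m m' h3 h4 h6 h7
      refine h1 m m' _ h3 h7 (by omega) h6 ?_
      exact (Nat.floor_le (by positivity)).trans h2
    · intro δ hδ
      filter_upwards [hxt.eventually (hGAP Ω μ A Q k P hQ hA hP hS c δ hc hδ)] with n h1 m h2 h3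
      exact (h1 m h2 h3).2
  have hU' : ∀ᵐ ω ∂μ, ∀ c : ℚ, 0 < (c : ℝ) → ∀ j : ℕ, ∀ᶠ n in atTop,
      Few (BF (A ω) Q P c (x n)) (x n) (1 - c + 1 / ((j : ℝ) + 1)) := by
    rw [ae_all_iff]
    intro c
    by_cases hc : 0 < (c : ℝ)
    · filter_upwards [ae_all_iff.mpr (hU c hc)] with ω h _
      exact h
    · exact ae_of_all _ fun ω h => absurd h hc
  have hT' : ∀ᵐ ω ∂μ, ∀ c θ : ℚ, 0 < (c : ℝ) → (c : ℝ) < θ → (θ : ℝ) < 1 → ∀ᶠ n in atTop,
      Thick (BF (A ω) Q P c (x n)) (x n) θ := by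
    rw [ae_all_iff]
    intro c
    rw [ae_all_iff]
    intro θ
    by_cases h : 0 < (c : ℝ) ∧ (c : ℝ) < θ ∧ (θ : ℝ) < 1
    · filter_upwards [hT c θ h.1 h.2.1 h.2.2] with ω h1 _ _ _
      exact h1
    · exact ae_of_all _ fun ω h1 h2 h3 => absurd ⟨h1, h2, h3⟩ h
  filter_upwards [hU', hT'] with ω g1 g2
  refine ⟨fun c hc δ hδ => ?_, g2⟩
  obtain ⟨j, hj⟩ := exists_nat_one_div_lt hδ
  filter_upwards [g1 c hc j, hx1] with n h1 h2
  exact few_mono h2 (by linarith) h1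

end Pool.Agent.Q120.SM
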