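import Pool.Agent.Q120.GM.Exists

/-!
# Project SM: multifractal spectra in the models of the primes

Continues `MP_69be96_nt.MultifractalGaps` (files `Pool/Agent/Q120/MF`: `Events`, `Hits`, `Dim`; read them first, the proofs here are
the same with more general events).

HAND-IN 1 (row `MP_31d0eb_nt`, primes in short intervals, VERY FAMOUS): the multifractal spectrum of the local densities.
`A` contains the integers independently with probabilities `p(n)`, where `p(n) → 0` and the expected number of elements of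
`(m, m + a log² m]` is `~ a log m` (Cramér's model, the sieved models). `x_n > 0` any sequence with `∑ x_n^(-ε) < ∞`. Almost surely for
all `u ≥ 0`: the set of the `α ∈ [1,2]` for which the density of `A` in `(α x_n, α x_n + a log² x_n]`, divided by `1/log x_n`, is `≥ u`
(`≤ u` if `u < 1`) for infinitely many `n` (up to `ε`) has Hausdorff dimension exactly `1 - a (1 - u + u log u)` (empty if this is
negative), and if `log x_(n+1)/log x_n → ∞` the set where this density converges to `u` has the same dimension.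

HAND-IN 2 (row `MP_8923e7_nt`, k-tuples, VERY FAMOUS): the spectrum of the gaps in the Bateman-Horn problem at every level `Q`: almost
surely for ALL systems `F` of `k` polynomials with nonzero singular series `S_Q(F)` and all `c`: the set of the `α ∈ [1,2]` for which
`(α x_n, α x_n + c L_F(x_n)]`, `L_F(x) = (∏ deg F_i / S_Q(F)) (log x)^(k+1)`, contains no `n'` with all `F_i(n') ∈ A`, for infinitely many
`n`, has dimension exactly `1 - c`, and the largest gap is `~ L_F`.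
-/

set_option autoImplicit false

namespace Pool.Agent.Q120.SM

open Finset MeasureTheory Filter Topology Polynomial Pool.Agent.Q120.GM

/-- the sequences of scales -/
def Scales (x : ℕ → ℝ) : Prop := (∀ n, 0 < x n) ∧ ∀ ε : ℝ, 0 < ε → Summable (fun n => x n ^ (-ε))

/-- the `α ∈ [1,2]` with `⌊α x_n⌋ ∈ B n` for infinitely many `n` -/
def LS (x : ℕ → ℝ) (B : ℕ → Set ℕ) : Set ℝ := {α | 1 ≤ α ∧ α ≤ 2 ∧ ∃ᶠ n in atTop, ⌊α * x n⌋₊ ∈ B n}

/-- the `α ∈ [1,2]` with `⌊α x_n⌋ ∈ B n` for all large `n` -/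
def LI (x : ℕ → ℝ) (B : ℕ → Set ℕ) : Set ℝ := {α | 1 ≤ α ∧ α ≤ 2 ∧ ∀ᶠ n in atTop, ⌊α * x n⌋₊ ∈ B n}

/-- fewer than `x^t` elements of `B` in `(x - 1, 2 x]` -/
def Few (B : Set ℕ) (x t : ℝ) : Prop := ({m : ℕ | m ∈ B ∧ x - 1 < m ∧ (m : ℝ) ≤ 2 * x}.ncard : ℝ) < x ^ t

/-- every window of relative length `4 x^(θ-1)` contains `[m/x, (m+1)/x]` with `m ∈ B` -/
def Thick (B : Set ℕ) (x θ : ℝ) : Prop :=
  ∀ w : ℝ, 1 ≤ w → w + 4 * x ^ (θ - 1) ≤ 2 → ∃ m ∈ B, w * x ≤ m ∧ (m : ℝ) + 1 ≤ (w + 4 * x ^ (θ - 1)) * x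

/-- JOB D1 (1.0 h, deterministic): upper bound for the dimension and emptiness. Proof: `dimH_often_le` and `often_empty` of
`Q120/MF/Dim.lean`: cover by the intervals `[m/x_n, (m+1)/x_n]`, `m ∈ B n`, `x_n - 1 < m ≤ 2 x_n`, `n ≥ N`. -/
def J_D1 : Prop := ∀ (x : ℕ → ℝ) (B : ℕ → Set ℕ), Scales x →
  (∀ s : ℝ, 0 ≤ s → (∀ δ : ℝ, 0 < δ → ∀ᶠ n in atTop, Few (B n) (x n) (s + δ)) → dimH (LS x B) ≤ ENNReal.ofReal s) ∧
  (∀ s : ℝ, s < 0 → (∀ᶠ n in atTop, Few (B n) (x n) s) →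
    (∀ᶠ n in atTop, ∀ m ∈ B n, x n - 1 < m → ¬ (m : ℝ) ≤ 2 * x n) ∧ LS x B = ∅)

/-- JOB D2 (1.2 h, deterministic): lower bounds for the dimensions. Proof: `le_dimH_of_hits`, `exists_subseq`, `le_dimH_often`,
`le_dimH_always` of `Q120/MF/Dim.lean` (tree lemma `Q273.CG.le_dimH_all`), with intervals `[m/x, (m+1/2)/x]` in place of
`[m/x, (m+1)/x]` (so that `⌊α x⌋ = m` on them; `ℓ (k+1) = 1/(2 y k)`), and `ε → 0`. -/
def J_D2 : Prop := ∀ (x : ℕ → ℝ) (B : ℕ → Set ℕ) (θ : ℝ), Scales x → 0 < θ → θ < 1 →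
  (∀ᶠ n in atTop, Thick (B n) (x n) θ) →
  ENNReal.ofReal (1 - θ) ≤ dimH (LS x B) ∧
  (Tendsto (fun n => Real.log (x (n + 1)) / Real.log (x n)) atTop atTop → ENNReal.ofReal (1 - θ) ≤ dimH (LI x B))

/-- JOB PU (0.6 h): few bad positions. Markov's inequality (`Q120.MF.markov`) with `t = x_n^(1-s+δ)`, expectation
`≤ (x_n + 2) x_n^(-s+δ/2)`, Borel-Cantelli (`∑ 3 x_n^(-δ/2) < ∞`). -/
def J_PU : Prop := ∀ (Ω : Type) [MeasurableSpace Ω] (μ : Measure Ω) [IsProbabilityMeasure μ] (x : ℕ → ℝ)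
  (E : ℕ → ℕ → Set Ω) (s : ℝ), Scales x → (∀ n m, MeasurableSet (E n m)) →
  (∀ δ : ℝ, 0 < δ → ∀ᶠ n in atTop, ∀ m : ℕ, x n - 1 < m → (m : ℝ) ≤ 2 * x n → μ.real (E n m) ≤ x n ^ (-s + δ)) →
  ∀ δ : ℝ, 0 < δ → ∀ᵐ ω ∂μ, ∀ᶠ n in atTop, Few {m | ω ∈ E n m} (x n) (1 - s + δ)

/-- JOB PL (1.3 h): bad positions everywhere. `E n m` is determined by the elements of `W n m`, windows at distance between `D n` and
`x_n^θ` are disjoint. Proof: `MF/Hits.lean`: blocks `[j L, (j+1) L)`, `L = ⌊x_n^θ⌋`; in a block the positions `j L + i D n`,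
`i < N = L / D n`, are mutually independent (`indep_real` and induction: the events of the first positions are measurable for the
union of their windows), so the probability that none is bad is `≤ (1 - x_n^(-s-δ))^N ≤ exp(-N x_n^(-s-δ)) ≤ x_n^(-4)`;
union bound over the blocks in `[x_n, 2 x_n]`, Borel-Cantelli. -/
def J_PL : Prop := ∀ (Ω : Type) [MeasurableSpace Ω] (μ : Measure Ω) [IsProbabilityMeasure μ] (p : ℕ → ℝ) (A : Ω → Set ℕ)
  (x : ℕ → ℝ) (E : ℕ → ℕ → Set Ω) (W : ℕ → ℕ → Set ℕ) (D : ℕ → ℕ) (s θ : ℝ), IsModel μ p A → Scales x →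
  (∀ n m, MeasurableSet[F A (W n m)] (E n m)) → 0 ≤ s → s < θ → θ < 1 → (∀ n, 1 ≤ D n) →
  (∀ δ : ℝ, 0 < δ → ∀ᶠ n in atTop, (D n : ℝ) ≤ x n ^ δ) →
  (∀ᶠ n in atTop, ∀ m m' : ℕ, x n - 1 < m → m + D n ≤ m' → (m' : ℝ) ≤ m + x n ^ θ → (m' : ℝ) ≤ 2 * x n →
    Disjoint (W n m) (W n m')) →
  (∀ δ : ℝ, 0 < δ → ∀ᶠ n in atTop, ∀ m : ℕ, x n - 1 < m → (m : ℝ) ≤ 2 * x n → x n ^ (-s - δ) ≤ μ.real (E n m)) →
  ∀ᵐ ω ∂μ, ∀ᶠ n in atTop, Thick {m | ω ∈ E n m} (x n) θ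

/-! ## hand-in 1 -/

/-- `p(n) → 0` and `(m, m + a log² m]` has about `a log m` elements in the mean -/
def Regular (p : ℕ → ℝ) : Prop := Tendsto p atTop (𝓝 0) ∧ ∀ a : ℝ, 0 < a →
  Tendsto (fun m : ℕ => (∑ n ∈ Ioc m (m + ⌊a * Real.log m ^ 2⌋₊), p n) / Real.log m) atTop (𝓝 a)

/-- number of the elements of `S` in `(m, m + h]` -/
noncomputable def cnt (S : Set ℕ) (m h : ℕ) : ℕ := {n : ℕ | n ∈ S ∧ m < n ∧ n ≤ m + h}.ncard

/-- the rate function -/
noncomputable def ff (u : ℝ) : ℝ := 1 - u + u * Real.log u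

/-- JOB REG (0.8 h): the sieved models of all levels `Q ≥ 1` (Cramér's model for `Q = 1`) are regular: among `Q` consecutive
integers `φ(Q)` are coprime to `Q`, and `log n` varies little in the window. -/
def J_REG : Prop := ∀ Q : ℕ, 1 ≤ Q → Regular (level Q)

/-- JOB CHU (1.0 h): Chernoff bounds. For `x` large and `x - 1 < m ≤ 2 x` the mean `λ` of `cnt` over `(m, m + ⌊a log² x⌋]` is
`(1+o(1)) a log x` (from `Regular` with `log m = log x + O(1)`, as `p → 0` and the two windows differ by `O(log x)` integers).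
For `t` real `E e^(t cnt) ≤ exp((e^t - 1) λ)`; take `e^t = u` for `u ≥ 1`, and for `0 < u ≤ 1`; for `u = 0` the probability of
an empty window is at most `e^(-λ)`. -/
def J_CHU : Prop := ∀ (Ω : Type) [MeasurableSpace Ω] (μ : Measure Ω) [IsProbabilityMeasure μ] (p : ℕ → ℝ) (A : Ω → Set ℕ),
  Regular p → IsModel μ p A → ∀ a u δ : ℝ, 0 < a → 0 < δ →
  (1 ≤ u → ∀ᶠ x : ℝ in atTop, ∀ m : ℕ, x - 1 < m → (m : ℝ) ≤ 2 * x →
    μ.real {ω | u * (a * Real.log x) ≤ cnt (A ω) m ⌊a * Real.log x ^ 2⌋₊} ≤ x ^ (-(a * ff u) + δ)) ∧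
  (0 ≤ u → u ≤ 1 → ∀ᶠ x : ℝ in atTop, ∀ m : ℕ, x - 1 < m → (m : ℝ) ≤ 2 * x →
    μ.real {ω | (cnt (A ω) m ⌊a * Real.log x ^ 2⌋₊ : ℝ) ≤ u * (a * Real.log x)} ≤ x ^ (-(a * ff u) + δ))

/-- JOB CHL (1.3 h): the lower bound for the probability of a given density. With `k = ⌈u a log x⌉` (`k = 0` if `u = 0`), `λ` the mean and
`p₀ = max p` over the window (`→ 0`): `P(cnt = k) = ∏ (1-p_i) e_k(p_i/(1-p_i)) ≥ e^(-λ (1+2p₀)) e_k(p)` and
`e_k(p) ≥ (λ - k p₀)^k / k!` (induction on `k`: `(k+1) e_(k+1) = ∑ p_i e_k(without i) ≥ (λ - k p₀) e_k`-type bound), so with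
`k! ≤ k^k e^(-k) · 3 k` (or any Stirling bound) `P(cnt = k) ≥ x^(-(a ff u) - δ)` for large `x`. (An alternative is to tilt.) -/
def J_CHL : Prop := ∀ (Ω : Type) [MeasurableSpace Ω] (μ : Measure Ω) [IsProbabilityMeasure μ] (p : ℕ → ℝ) (A : Ω → Set ℕ),
  Regular p → IsModel μ p A → ∀ a u ε δ : ℝ, 0 < a → 0 ≤ u → 0 < ε → 0 < δ →
  ∀ᶠ x : ℝ in atTop, ∀ m : ℕ, x - 1 < m → (m : ℝ) ≤ 2 * x →
    x ^ (-(a * ff u) - δ) ≤ μ.real {ω | |(cnt (A ω) m ⌊a * Real.log x ^ 2⌋₊ : ℝ) - u * (a * Real.log x)| ≤ ε * Real.log x}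

/-! ## hand-in 2 -/

/-- systems of `k ≥ 1` distinct nonconstant polynomials with positive leading coefficients -/
structure Sys (k : ℕ) (P : Fin k → ℤ[X]) : Prop where
  pos : 1 ≤ k
  inj : Function.Injective P
  lead : ∀ i, 0 < (P i).leadingCoeff
  deg : ∀ i, 0 < (P i).natDegree

open Classical in
/-- the singular series of level `Q` -/
noncomputable def SQ (Q k : ℕ) (P : Fin k → ℤ[X]) : ℝ := ((Q : ℝ) / Nat.totient Q) ^ k *
  (((range Q).filter fun m : ℕ => ∀ i, IsCoprime ((P i).eval (m : ℤ)) (Q : ℤ)).card : ℝ) / Q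

/-- all values at `n` are elements of `S` -/
def Occ (S : Set ℕ) {k : ℕ} (P : Fin k → ℤ[X]) (n : ℕ) : Prop := ∀ i, ∃ m ∈ S, (m : ℤ) = (P i).eval (n : ℤ)

/-- the expected size of the largest gap -/
noncomputable def LF (Q k : ℕ) (P : Fin k → ℤ[X]) (x : ℝ) : ℝ :=
  (∏ i, ((P i).natDegree : ℝ)) / SQ Q k P * Real.log x ^ (k + 1)

/-- no occurrence in `(m, m + h]` -/
def NoOcc (S : Set ℕ) {k : ℕ} (P : Fin k → ℤ[X]) (m h : ℕ) : Prop := ∀ n : ℕ, m < n → n ≤ m + h → ¬ Occ S P n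

/-- the values of the system in a window -/
def vals {k : ℕ} (P : Fin k → ℤ[X]) (m h : ℕ) : Set ℕ := {v | ∃ n i, m < n ∧ n ≤ m + h ∧ (v : ℤ) = (P i).eval (n : ℤ)}

/-- JOB SEP (0.8 h, deterministic): the values in distant windows of one short interval are different: for `i, j` and large `n`, the equation
`P_i(n) = P_j(n + t)`, `D ≤ t ≤ n^θ'`, has no solution: the degrees must be equal (sizes), then the leading coefficients (ratio of the
values `→ 1`), and then `P_j(n+t) - P_i(n) = a d t n^(d-1) (1+o(1)) + O(n^(d-1)) > 0` for `t ≥ D`, `D` large. -/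
def J_SEP : Prop := ∀ (k : ℕ) (P : Fin k → ℤ[X]), Sys k P → ∀ θ : ℝ, 0 < θ → θ < 1 → ∃ D : ℕ, ∀ᶠ x : ℝ in atTop, ∀ m m' h : ℕ,
  x - 1 < m → (m' : ℝ) ≤ 2 * x → m + h + D ≤ m' → (m' : ℝ) ≤ m + x ^ θ → (h : ℝ) ≤ x ^ θ →
  Disjoint (vals P m h) (vals P m' h)

/-- JOB SUM (1.2 h, deterministic): sums of the probabilities over windows. `w(n) = ∏ level Q (P_i(n))` (product over the distinct values; for
large `n` the values `P_i(n)` are distinct and positive) is `(Q/φ(Q))^k 1[(∏ P_i(n), Q) = 1] / ∏ log P_i(n)`, periodic up to the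
logarithms, `log P_i(n) = deg P_i log n + O(1)`; the mean over a period is `SQ / (∏ deg · log^k x)`. Windows of length
`h = ⌊c LF(x)⌋` contain `h/Q + O(1)` periods: the sum is `(c + o(1)) log x`. -/
def J_SUM : Prop := ∀ (Q k : ℕ) (P : Fin k → ℤ[X]), 1 ≤ Q → Sys k P → 0 < SQ Q k P → ∀ c δ : ℝ, 0 < c → 0 < δ →
  ∀ᶠ x : ℝ in atTop, ∀ m : ℕ, x - 1 < m → (m : ℝ) ≤ 2 * x →
    |(∑ n ∈ Ioc m (m + ⌊c * LF Q k P x⌋₊), ∏ v ∈ univ.image (fun i => ((P i).eval (n : ℤ)).toNat), level Q v) -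
      c * Real.log x| ≤ δ * Real.log x

/-- JOB GAP (1.3 h, uses `J_SUM`): the probability of a window without occurrences. For large `n` the event `Occ` is `all A (U n)` with
`U n` the set of the values (positive integers). Lower bound: Harris (`Q120.GM.harris`): `∏ (1 - w(n)) ≥ exp(-(1+δ) ∑ w(n))`.
Upper bound: Janson (`Q120.GM.janson`): the correction is `∑_n ∑_(l ≠ n, U l ∩ U n ≠ ∅) ∏_(U l ∪ U n) level`; for `l, n` in the window
with a common value `|l - n| ≤ D` (as in JOB SEP), so there are at most `2D` such `l` for each `n`, and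
`U l ∪ U n` contains a further value, which for large `n` costs a factor `≤ C/log x`: the correction is `≤ C h (log x)^(-k-1) = O(1)`. -/
def J_GAP : Prop := ∀ (Ω : Type) [MeasurableSpace Ω] (μ : Measure Ω) [IsProbabilityMeasure μ] (A : Ω → Set ℕ) (Q k : ℕ)
  (P : Fin k → ℤ[X]), 1 ≤ Q → IsModel μ (level Q) A → Sys k P → 0 < SQ Q k P → ∀ c δ : ℝ, 0 < c → 0 < δ →
  ∀ᶠ x : ℝ in atTop, ∀ m : ℕ, x - 1 < m → (m : ℝ) ≤ 2 * x →
    μ.real {ω | NoOcc (A ω) P m ⌊c * LF Q k P x⌋₊} ≤ x ^ (-c + δ) ∧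
    x ^ (-c - δ) ≤ μ.real {ω | NoOcc (A ω) P m ⌊c * LF Q k P x⌋₊}

end Pool.Agent.Q120.SM
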